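import Pool.Agent.LibWor51.Glue

/-!
The gluing theorem in terms of the definitions of `LibG64`, from the two existence statements (NB), (ST).
-/

namespace Wor51

open Polynomial Pool.Agent.LibG64

variable {F : Type*} [Field F] {A : Type*} [AddCommGroup A]

theorem isV_iff {n : ℕ} {g : F[X]} : IsV n g ↔ g ∈ W F n := Iff.rfl

theorem cd_of_cdata {σ : F →+* F} {Q n : ℕ} {y : F[X]} {c : F[X] → A} (h : CData σ Q n y c) : CD σ Q n y c := by
  refine ⟨fun f g hf hg => h.mul f hf g hg, fun f hf => h.frob f hf, fun f g hf hg hd => ?_⟩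
  refine h.supp f hf g hg fun O hO => ?_
  rw [← Xs_eq_Pl] at hO
  exact sameDir_iff.1 (hd O hO).symm

theorem bsys_of_sys {σ : F →+* F} {Q n : ℕ} {b : F[X] → F[X] → A} (S : Sys σ Q n b) : BSys σ Q n b := by
  refine ⟨fun y hy hyn hne => cd_of_cdata (S.data y ⟨hy, hyn⟩ ?_), ?_⟩
  · rwa [Xs_eq_Pl] at hne
  · intro x y hx hxn hy hyn hnx hny i h1 h2
    rw [Xs_eq_Pl] at hnx hny
    exact S.rel x y ⟨hx, hxn⟩ ⟨hy, hyn⟩ hnx hny i h1 h2

/-- `π ≠ π^σ` with a place gives base data -/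
theorem exists_base {p m n : ℕ} [Fact p.Prime] [CharP F p] (hdiv : Pool.Agent.LibG64.Div F) {σ : F →+* F}
    (hσ : IsFrob σ (p ^ m)) (hn : 2 ≤ n) {π : F[X]} (hπ : Mon n π) (hne : π.map σ ≠ π) (hpl : (Pl σ π).Nonempty) :
    ∃ f α, Base σ (p ^ m) n f π α := by
  have hm : 1 ≤ m := by
    rcases Nat.eq_zero_or_pos m with h | h
    · subst h
      have := hσ.two_le
      rw [pow_zero] at this
      omega
    · exact h
  obtain ⟨f, hf, hD, h⟩ := exists_form (F := F) (p := p) (s := m) (n := n) hm hn σ hσ.pow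
  have hdiv' : Wor51.Div F := fun a m hm => hdiv m hm a
  obtain ⟨α, hα0, hα⟩ := exists_content hdiv' hf hD (π - π.map σ)
  exact ⟨f, α, hσ.two_le, hσ.pow, by omega, hdiv', hf, hD, h, hπ.1, hπ.2, hne, by rwa [Xs_eq_Pl], hα,
    hα0 (sub_ne_zero.2 fun h => hne h.symm)⟩

/-- the gluing theorem -/
theorem glue_holds {p m n : ℕ} [Fact p.Prime] [CharP F p] (hdiv : Pool.Agent.LibG64.Div F) {σ : F →+* F}
    (hσ : IsFrob σ (p ^ m)) (hn : 2 ≤ n) (hA : TF A)
    (nb : ∀ f π α, Base σ (p ^ m) n f π α → NBStatement σ n π α)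
    (st : ∀ f π α, Base σ (p ^ m) n f π α → STStatement σ n π α) :
    ∀ b : F[X] → F[X] → A, Sys σ (p ^ m) n b → ∀ y : F[X], Mon n y → y.map σ ≠ y → (Pl σ y).Nonempty →
      (∀ b' : F[X] → F[X] → A, QSym σ (p ^ m) y b' → ∀ f ∈ W F n, ∀ g ∈ W F n, b' f g = 0) →
      ∀ g ∈ W F n, b g y = 0 := by
  intro b S y hy hne hpl hb' g hg
  obtain ⟨f, α, B⟩ := exists_base hdiv hσ hn hy hne hpl
  exact main_of_statements B hA (bsys_of_sys S) (nb f y α B) (st f y α B) hb' hg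

end Wor51
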