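import Pool.Agent.LibWor51.Cls

/-!
(NB): existence of common finer neighbours.  `z = y^(σ^k) + ε h₁` with `h₁` of Gauss norm `1` on the world, `|ε| = |α|^J`
on `P` and `|ε| > max (1, |y^(σ^k)|)` at all places of `y`, `y'` outside `P`.
-/

namespace Wor51

open Polynomial

variable {F : Type*} [Field F] {O : ValuationSubring F} {σ : F →+* F} {Q n : ℕ} {f π : F[X]} {α : F}

/-- a power estimate -/
theorem pow_lt_of_pow_le {Γ : Type*} [LinearOrderedCommGroupWithZero Γ] {t a : Γ} {K J N : ℕ} (hK : K ≠ 0) (hN : K * J < N)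
    (ha0 : 0 < a) (ha1 : a < 1) (h : t ^ K ≤ a) : t ^ N < a ^ J := by
  have ht1 : t < 1 := (pow_lt_one_iff hK).1 (h.trans_lt ha1)
  rcases eq_or_ne t 0 with rfl | ht
  · rw [zero_pow (by omega)]
    exact pow_pos ha0 _
  · have ht0 : 0 < t := zero_lt_iff.2 ht
    calc t ^ N < t ^ (K * J) := pow_lt_pow_right_of_lt_one₀ ht0 ht1 hN
      _ = (t ^ K) ^ J := pow_mul _ _ _
      _ ≤ a ^ J := pow_le_pow_left' h J

/-- directions of `x - z`, `x^σ - z`, `x^(σ^k) - z` at one place, for `z = y^(σ^k) + w` -/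
theorem fine_local (hσ : ∀ x, σ x = x ^ Q) (hQ : 2 ≤ Q) {k : ℕ} (hk : 2 ≤ k) {x y w : F[X]}
    (hη : gn O (x - x.map σ) < 1) (h1 : gn O w < gn O (x - x.map σ) ^ Q)
    (h3 : gn O (x - y) ^ (Q ^ k) < gn O w) :
    SameDir O (x - x.map σ) (x - (tw σ k y + w)) ∧
      SameDir O ((x - x.map σ).map σ) (x.map σ - (tw σ k y + w)) ∧
      SameDir O w (tw σ k x - (tw σ k y + w)) := by
  obtain ⟨m, rfl⟩ : ∃ m, k = m + 2 := ⟨k - 2, by omega⟩
  set η := gn O (x - x.map σ) with hηd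
  have hw0 : 0 < gn O w := lt_of_le_of_lt zero_le h3
  have hη0 : 0 < η := by
    rw [zero_lt_iff]
    intro h0
    rw [h0, zero_pow (by omega)] at h1
    exact absurd h1 (not_lt.2 zero_le)
  have hs : gn O (tw σ (m + 2) (x - y)) < gn O w := by
    rw [gn_tw hσ]; exact h3
  have hηQ : η ^ Q < η := by
    calc η ^ Q < η ^ 1 := pow_lt_pow_right_of_lt_one₀ hη0 hη (by omega)
      _ = η := pow_one _
  have hηQ0 : 0 < η ^ Q := pow_pos hη0 _
  have hηQQ : (η ^ Q) ^ Q < η ^ Q := by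
    rw [← pow_mul]
    exact pow_lt_pow_right_of_lt_one₀ hη0 hη (by nlinarith)
  have eA : x.map σ - (tw σ (m + 2) y + w) = (x - tw σ (m + 1) x).map σ + tw σ (m + 2) (x - y) - w := by
    rw [Polynomial.map_sub, tw_sub', ← tw_succ]; ring
  have eB : (x - tw σ (m + 1) x).map σ = (x - x.map σ).map σ + ((x - tw σ m x).map σ).map σ := by
    rw [tw_succ]
    simp only [Polynomial.map_sub]
    ring
  have b1 : gn O ((x - tw σ (m + 1) x).map σ) ≤ η ^ Q := by
    rw [gn_map hσ]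
    exact pow_le_pow_left' (gn_sub_tw_le hσ (by omega) hη.le _) Q
  have b2 : gn O (((x - tw σ m x).map σ).map σ) ≤ (η ^ Q) ^ Q := by
    rw [gn_map hσ, gn_map hσ]
    exact pow_le_pow_left' (pow_le_pow_left' (gn_sub_tw_le hσ (by omega) hη.le _) Q) Q
  refine ⟨?_, ?_, ?_⟩
  · apply SameDir.of_sub_lt
    have e : x - (tw σ (m + 2) y + w) - (x - x.map σ) = x.map σ - (tw σ (m + 2) y + w) := by ring
    rw [e, eA]
    exact gn_sub_lt (gn_add_lt (b1.trans_lt hηQ) ((hs.trans h1).trans hηQ)) (h1.trans hηQ)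
  · apply SameDir.of_sub_lt
    have e : x.map σ - (tw σ (m + 2) y + w) - (x - x.map σ).map σ
        = ((x - tw σ m x).map σ).map σ + tw σ (m + 2) (x - y) - w := by
      rw [eA, eB]; ring
    rw [e, gn_map hσ (g := x - x.map σ)]
    exact gn_sub_lt (gn_add_lt (b2.trans_lt hηQQ) (hs.trans h1)) h1
  · have e : tw σ (m + 2) x - (tw σ (m + 2) y + w) = tw σ (m + 2) (x - y) - w := by
      rw [tw_sub']; ring
    have e2 : gn O (tw σ (m + 2) (x - y) - w) = gn O w := by
      rw [gn_sub_comm]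
      exact gn_sub_of_lt hs
    refine ⟨-1, by simp, ?_⟩
    rw [e, e2]
    have e3 : tw σ (m + 2) (x - y) - w - C (-1) * w = tw σ (m + 2) (x - y) := by
      rw [C_neg, C_1]; ring
    rw [e3]
    exact hs

/-- `z - z^σ` for `z = y^(σ^k) + w` -/
theorem dz_local (hσ : ∀ x, σ x = x ^ Q) (hQ : 2 ≤ Q) {k : ℕ} {y w : F[X]} (hw1 : gn O w < 1)
    (h2 : gn O (y - y.map σ) ^ (Q ^ k) < gn O w) :
    SameDir O w ((tw σ k y + w) - (tw σ k y + w).map σ) ∧
      gn O ((tw σ k y + w) - (tw σ k y + w).map σ) = gn O w := by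
  have hw0 : 0 < gn O w := lt_of_le_of_lt zero_le h2
  have e : (tw σ k y + w) - (tw σ k y + w).map σ - w = tw σ k (y - y.map σ) - w.map σ := by
    rw [tw_sub', ← tw_succ', tw_succ, Polynomial.map_add]; ring
  have b : gn O ((tw σ k y + w) - (tw σ k y + w).map σ - w) < gn O w := by
    rw [e]
    refine gn_sub_lt (by rw [gn_tw hσ]; exact h2) ?_
    rw [gn_map hσ]
    calc gn O w ^ Q < gn O w ^ 1 := pow_lt_pow_right_of_lt_one₀ hw0 hw1 (by omega)
      _ = gn O w := pow_one _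
  refine ⟨SameDir.of_sub_lt b, ?_⟩
  apply gn_eq_of_sub_lt
  rwa [gn_sub_comm]

theorem Base.alpha_lt (B : Base σ Q n f π α) (hO : O ∈ Xs σ π) : O.valuation α < 1 := by
  rw [B.content O (B.world π B.mon B.deg hO)]
  exact hO.2.1

theorem Base.alpha_pos (B : Base σ Q n f π α) (O : ValuationSubring F) : 0 < O.valuation α :=
  zero_lt_iff.2 ((Valuation.ne_zero_iff _).2 B.alpha_ne)

/-- `gn (y - y^σ) ^ K ≤ α` on `P` -/
theorem Cls.om_le (B : Base σ Q n f π α) {K : ℕ} (hK : 1 ≤ K) {γ : F} {y : F[X]} (h : Cls σ n π α K γ y)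
    (hO : O ∈ Xs σ π) : gn O (y - y.map σ) ^ K ≤ O.valuation α := by
  have hα := B.alpha_lt hO
  have hc := B.content O (B.world π B.mon B.deg hO)
  have h1 := h.near O hO
  have h2 : gn O (y - π) ≤ 1 := (pow_le_one_iff (by omega : K ≠ 0)).1 (h1.trans hα.le)
  have e : y - y.map σ = (y - π) - (y - π).map σ + (π - π.map σ) := by
    rw [Polynomial.map_sub]; ring
  have b : gn O ((y - π).map σ) ≤ gn O (y - π) := by
    rw [gn_map B.frob]
    exact pow_le_of_le_one zero_le h2 (by have := B.two_le; omega)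
  have b' : gn O (y - y.map σ) ≤ max (gn O (y - π)) (O.valuation α) := by
    rw [e]
    refine gn_add_le ((gn_sub_le le_rfl b).trans (le_max_left _ _)) ?_
    rw [hc]; exact le_max_right _ _
  calc gn O (y - y.map σ) ^ K ≤ max (gn O (y - π)) (O.valuation α) ^ K := pow_le_pow_left' b' K
    _ ≤ O.valuation α := by
      rcases max_choice (gn O (y - π)) (O.valuation α) with h' | h' <;> rw [h']
      · exact h1
      · exact pow_le_of_le_one zero_le hα.le (by omega)

/-- the scale `ε` -/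
theorem exists_eps (B : Base σ Q n f π α) {K : ℕ} (hK : 1 ≤ K) {γ γ' : F} {y y' : F[X]} (h : Cls σ n π α K γ y)
    (h' : Cls σ n π α K γ' y') (J : ℕ) (g : F[X]) (hg : ∀ O ∈ Xs σ π, gn O g ≤ 1) :
    ∃ ε : F, ε ≠ 0 ∧ (∀ O ∈ Xs σ π, O.valuation ε = O.valuation α ^ J) ∧
      ∀ O : ValuationSubring F, O ∈ Xs σ y ∨ O ∈ Xs σ y' → O ∉ Xs σ π →
        1 < O.valuation ε ∧ gn O g < O.valuation ε := by
  have hPX : ∀ O ∈ Xs σ π, O ∈ XX f := fun O hO => B.world π B.mon B.deg hO
  obtain ⟨c, _, hc⟩ := exists_content B.div B.fmon B.fdeg g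
  obtain ⟨s, _, hs⟩ := exists_max B.div B.fmon B.fdeg 1 c
  obtain ⟨γm, _, hγm⟩ := exists_max B.div B.fmon B.fdeg γ γ'
  obtain ⟨T, hT0, hT⟩ := exists_max B.div B.fmon B.fdeg 1 (s * (α ^ J)⁻¹ * γm ^ (K * J + 1))
  have hT0 := hT0 (Or.inl one_ne_zero)
  have hαJ : ∀ O : ValuationSubring F, O.valuation α ^ J ≠ 0 := fun O => pow_ne_zero _ (B.alpha_pos O).ne'
  refine ⟨α ^ J * T, mul_ne_zero (pow_ne_zero _ B.alpha_ne) hT0, ?_, ?_⟩
  · intro O hO
    rw [map_mul, map_pow, hT O (hPX O hO), map_one]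
    have hs1 : O.valuation s = 1 := by
      rw [hs O (hPX O hO), map_one, hc O (hPX O hO)]
      exact max_eq_left (hg O hO)
    have hγ : O.valuation γm ^ K ≤ O.valuation α := by
      rw [hγm O (hPX O hO)]
      rcases max_choice (O.valuation γ) (O.valuation γ') with h1 | h1 <;> rw [h1]
      · exact h.cut O hO
      · exact h'.cut O hO
    have hγ1 : O.valuation γm ≤ 1 := (pow_le_one_iff (by omega : K ≠ 0)).1 (hγ.trans (B.alpha_lt hO).le)
    have hp : O.valuation γm ^ (K * J + 1) ≤ O.valuation α ^ J := by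
      calc O.valuation γm ^ (K * J + 1) ≤ O.valuation γm ^ (K * J) := pow_le_pow_right_of_le_one' hγ1 (by omega)
        _ = (O.valuation γm ^ K) ^ J := pow_mul _ _ _
        _ ≤ O.valuation α ^ J := pow_le_pow_left' hγ J
    have h1 : O.valuation (s * (α ^ J)⁻¹ * γm ^ (K * J + 1)) ≤ 1 := by
      rw [map_mul, map_mul, map_inv₀, map_pow, map_pow, hs1, one_mul]
      calc (O.valuation α ^ J)⁻¹ * O.valuation γm ^ (K * J + 1) ≤ (O.valuation α ^ J)⁻¹ * O.valuation α ^ J :=
            mul_le_mul_right hp _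
        _ = 1 := inv_mul_cancel₀ (hαJ O)
    rw [max_eq_left h1, mul_one]
  · intro O hO hn
    have hX : O ∈ XX f := by
      rcases hO with hO | hO
      · exact B.world y h.mon h.deg hO
      · exact B.world y' h'.mon h'.deg hO
    have hγ : 1 < O.valuation γm := by
      rw [hγm O hX, lt_max_iff]
      rcases hO with hO | hO
      · exact Or.inl (h.off O hO hn)
      · exact Or.inr (h'.off O hO hn)
    have h1 : O.valuation s < O.valuation (α ^ J * T) := by
      have hs0 : 0 < O.valuation s := by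
        rw [hs O hX, map_one]
        exact one_pos.trans_le (le_max_left _ _)
      have e1 : O.valuation s = O.valuation α ^ J * (O.valuation s * (O.valuation α ^ J)⁻¹) := by
        rw [mul_comm (O.valuation s), mul_inv_cancel_left₀ (hαJ O)]
      rw [map_mul, map_pow, hT O hX]
      calc O.valuation s = O.valuation α ^ J * (O.valuation s * (O.valuation α ^ J)⁻¹) * 1 := by rw [mul_one, ← e1]
        _ < O.valuation α ^ J * (O.valuation s * (O.valuation α ^ J)⁻¹) * O.valuation γm ^ (K * J + 1) := by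
          rw [← e1]
          exact (mul_lt_mul_iff_right₀ hs0).2 (one_lt_pow₀ hγ (by omega))
        _ = O.valuation α ^ J * O.valuation (s * (α ^ J)⁻¹ * γm ^ (K * J + 1)) := by
          rw [map_mul, map_mul, map_inv₀, map_pow, map_pow, mul_assoc]
        _ ≤ _ := mul_le_mul_right (le_max_right _ _) _
    rw [hs O hX, map_one, hc O hX, max_lt_iff] at h1
    exact h1

/-- a place of `z`, or of `y`, outside `P` separates `y` from `z` -/
theorem sep_of_big (B : Base σ Q n f π α) {P : Set (ValuationSubring F)} {y z : F[X]} (hy : y.Monic) (hyn : y.natDegree = n)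
    (hz : z.Monic) (hzn : z.natDegree = n) (hbig : ∀ O ∈ Xs σ y, O ∉ P → 1 < gn O z) : Sep σ P y z := by
  have hQ : 1 ≤ Q := by have := B.two_le; omega
  intro O hO hn
  by_contra hc
  rw [not_le] at hc
  have hOy : O ∈ Xs σ y := by
    rcases hO with hO | hO
    · exact hO
    · refine mem_Xs_congr B.frob hQ hz hy ?_ (by rwa [gn_sub_comm]) hO
      rw [degree_eq_natDegree hy.ne_zero, degree_eq_natDegree hz.ne_zero, hyn, hzn]
  exact absurd (gn_le_one_congr hOy.1 hc) (not_le.2 (hbig O hOy hn))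

/-- (NB) -/
theorem nb (B : Base σ Q n f π α) : NBStatement σ n π α := by
  intro y y' h hCy hCy' hh
  have hQ2 := B.two_le
  have hQ1 : 1 ≤ Q := by omega
  obtain ⟨K1, hK1, γ, C1⟩ := hCy
  obtain ⟨K2, hK2, γ', C2⟩ := hCy'
  obtain ⟨K, hKK1, hKK2⟩ : ∃ K : ℕ, K1 ≤ K ∧ K2 ≤ K := ⟨max K1 K2, le_max_left _ _, le_max_right _ _⟩
  have C1 := C1.mono B hK1 hKK1
  have C2 := C2.mono B hK2 hKK2
  have hK : 1 ≤ K := hK1.trans hKK1
  obtain ⟨J, hJ⟩ : ∃ J : ℕ, J = K * Q + 1 := ⟨_, rfl⟩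
  obtain ⟨k, hk⟩ : ∃ k : ℕ, k = K * J + 2 := ⟨_, rfl⟩
  have hJ1 : 1 ≤ J := by omega
  have hKJ : K ≤ J := by
    rw [hJ]
    have : K * 1 ≤ K * Q := Nat.mul_le_mul_left K hQ1
    omega
  have hk2 : 2 ≤ k := by omega
  have hQk : K * J < Q ^ k := by
    calc K * J < k := by omega
      _ < Q ^ k := Nat.lt_pow_self (by omega)
  have hPX : ∀ O ∈ Xs σ π, O ∈ XX f := fun O hO => B.world π B.mon B.deg hO
  -- the normalised direction
  obtain ⟨c, hc0, hc⟩ := exists_content B.div B.fmon B.fdeg h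
  have hc0 := hc0 hh.1
  obtain ⟨h₁, hh₁⟩ : ∃ h₁ : F[X], h₁ = C c⁻¹ * h := ⟨_, rfl⟩
  have hcv : ∀ O : ValuationSubring F, O.valuation c ≠ 0 := fun O => (Valuation.ne_zero_iff _).2 hc0
  have gh₁ : ∀ O ∈ XX f, gn O h₁ = 1 := by
    intro O hO
    rw [hh₁, gn_C_mul, map_inv₀, ← hc O hO, inv_mul_cancel₀ (hcv O)]
  -- the scale
  have htw : ∀ O ∈ Xs σ π, gn O (tw σ k y) ≤ 1 := by
    intro O hO
    rw [gn_tw B.frob]
    exact pow_le_one' (C1.sub hO).1 _
  obtain ⟨ε, hε0, hεP, hεn⟩ := exists_eps B hK C1 C2 J (tw σ k y) htw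
  obtain ⟨w, hw⟩ : ∃ w : F[X], w = C ε * h₁ := ⟨_, rfl⟩
  have gw : ∀ O ∈ XX f, gn O w = O.valuation ε := by
    intro O hO
    rw [hw, gn_C_mul, gh₁ O hO, mul_one]
  have gwP : ∀ O ∈ Xs σ π, gn O w = O.valuation α ^ J := fun O hO => by rw [gw O (hPX O hO), hεP O hO]
  have hwh : w = C (ε * c⁻¹) * h := by rw [hw, hh₁, C_mul, mul_assoc]
  have hdw : ∀ O : ValuationSubring F, SameDir O h w := by
    intro O
    rw [hwh]
    exact SameDir.C_mul (mul_ne_zero hε0 (inv_ne_zero hc0)) hh.1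
  obtain ⟨z, hz⟩ : ∃ z : F[X], z = tw σ k y + w := ⟨_, rfl⟩
  -- degrees
  have hwd : w.degree < (tw σ k y).degree := by
    rw [degree_tw, degree_eq_natDegree C1.mon.ne_zero, C1.deg, hwh,
      degree_C_mul (mul_ne_zero hε0 (inv_ne_zero hc0))]
    exact hh.2
  have hzm : z.Monic := by
    rw [hz]
    exact (monic_tw C1.mon k).add_of_left hwd
  have hzn : z.natDegree = n := by
    rw [hz, natDegree_add_eq_left_of_degree_lt hwd, natDegree_tw, C1.deg]
  have hzd : (tw σ k y).degree = z.degree := by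
    rw [hz, degree_add_eq_left_of_degree_lt hwd]
  -- estimates on `P`
  have key : ∀ O ∈ Xs σ π, ∀ t : O.ValueGroup, t ^ K ≤ O.valuation α → t ^ (Q ^ k) < O.valuation α ^ J :=
    fun O hO t ht => pow_lt_of_pow_le (by omega) hQk (B.alpha_pos O) (B.alpha_lt hO) ht
  have hαJ1 : ∀ O ∈ Xs σ π, O.valuation α ^ J ≤ O.valuation α := fun O hO =>
    pow_le_of_le_one zero_le (B.alpha_lt hO).le (by omega)
  have hαJlt : ∀ O ∈ Xs σ π, O.valuation α ^ J < 1 := fun O hO => (hαJ1 O hO).trans_lt (B.alpha_lt hO)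
  have hsub : ∀ u u' : F[X], (∀ O ∈ Xs σ π, gn O (u - π) ^ K ≤ O.valuation α) →
      (∀ O ∈ Xs σ π, gn O (u' - π) ^ K ≤ O.valuation α) →
      ∀ O ∈ Xs σ π, gn O (u - u') ^ K ≤ O.valuation α := by
    intro u u' h1 h2 O hO
    have e : u - u' = (u - π) - (u' - π) := by ring
    have b : gn O (u - u') ≤ max (gn O (u - π)) (gn O (u' - π)) := by
      rw [e]
      exact gn_sub_le (le_max_left _ _) (le_max_right _ _)
    refine (pow_le_pow_left' b K).trans ?_
    rcases max_choice (gn O (u - π)) (gn O (u' - π)) with h' | h' <;> rw [h']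
    · exact h1 O hO
    · exact h2 O hO
  have homQ : ∀ {γ₀ : F} {x : F[X]}, Cls σ n π α K γ₀ x → ∀ O ∈ Xs σ π, O.valuation α ^ J < gn O (x - x.map σ) ^ Q := by
    intro γ₀ x Cx O hO
    calc O.valuation α ^ J < O.valuation α ^ (K * Q) :=
          pow_lt_pow_right_of_lt_one₀ (B.alpha_pos O) (B.alpha_lt hO) (by omega)
      _ = (O.valuation α ^ K) ^ Q := pow_mul _ _ _
      _ ≤ gn O (x - x.map σ) ^ Q := pow_le_pow_left' (Cx.om O hO) Q
  have hlt1 : ∀ {γ₀ : F} {x : F[X]}, Cls σ n π α K γ₀ x → ∀ O ∈ Xs σ π, gn O (x - x.map σ) < 1 := by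
    intro γ₀ x Cx O hO
    exact (Cx.sub hO).2.1
  have hfine : ∀ {γ₀ : F} {x : F[X]}, Cls σ n π α K γ₀ x → ∀ O ∈ Xs σ π,
      SameDir O (x - x.map σ) (x - z) ∧ SameDir O ((x - x.map σ).map σ) (x.map σ - z) ∧
        SameDir O w (tw σ k x - z) := by
    intro γ₀ x Cx O hO
    rw [hz]
    refine fine_local B.frob hQ2 hk2 (hlt1 Cx O hO) ?_ ?_
    · rw [gwP O hO]; exact homQ Cx O hO
    · rw [gwP O hO]
      exact key O hO _ (hsub x y Cx.near C1.near O hO)
  have hdz : ∀ O ∈ Xs σ π, SameDir O w (z - z.map σ) ∧ gn O (z - z.map σ) = O.valuation α ^ J := by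
    intro O hO
    have h1 := dz_local (k := k) (y := y) (w := w) B.frob hQ2 (by rw [gwP O hO]; exact hαJlt O hO)
      (by rw [gwP O hO]; exact key O hO _ (C1.om_le B hK hO))
    rw [← hz, gwP O hO] at h1
    exact h1
  -- places outside `P`
  have hbig : ∀ O : ValuationSubring F, O ∈ Xs σ y ∨ O ∈ Xs σ y' → O ∉ Xs σ π → 1 < gn O z := by
    intro O hO hn
    have hX : O ∈ XX f := by
      rcases hO with hO | hO
      · exact B.world y C1.mon C1.deg hO
      · exact B.world y' C2.mon C2.deg hO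
    obtain ⟨h1, h2⟩ := hεn O hO hn
    rw [hz, add_comm, gn_add_of_lt (by rwa [gw O hX]), gw O hX]
    exact h1
  have hsep : Sep σ (Xs σ π) y z := sep_of_big B C1.mon C1.deg hzm hzn fun O hO hn => hbig O (Or.inl hO) hn
  have hsep' : Sep σ (Xs σ π) y' z := sep_of_big B C2.mon C2.deg hzm hzn fun O hO hn => hbig O (Or.inr hO) hn
  -- content of `z - z^σ`
  obtain ⟨β, hβ0, hβ⟩ := exists_content B.div B.fmon B.fdeg (z - z.map σ)
  have hβ0 : β ≠ 0 := by
    apply hβ0
    obtain ⟨O, hO⟩ := B.nonempty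
    intro h0
    have h1 := (hdz O hO).2
    rw [h0, gn_zero] at h1
    exact (pow_ne_zero J (B.alpha_pos O).ne') h1.symm
  have hPz : Xs σ π ⊆ Xs σ z := by
    intro O hO
    have h1 : O ∈ Xs σ (tw σ k y) := (mem_Xs_tw B.frob hQ1 C1.mon k).2 (C1.sub hO)
    refine mem_Xs_congr B.frob hQ1 (monic_tw C1.mon k) hzm hzd ?_ h1
    have e : tw σ k y - z = -w := by rw [hz]; ring
    rw [e, gn_neg, gwP O hO]
    exact hαJlt O hO
  have hεz : ∀ O ∈ Xs σ z, O ∉ Xs σ π → 1 ≤ O.valuation ε := by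
    intro O hO hn
    by_contra hlt
    rw [not_le] at hlt
    have hX : O ∈ XX f := B.world z hzm hzn hO
    have h1 : O ∈ Xs σ (tw σ k y) := by
      refine mem_Xs_congr B.frob hQ1 hzm (monic_tw C1.mon k) hzd.symm ?_ hO
      have e : z - tw σ k y = w := by rw [hz]; ring
      rw [e, gw O hX]
      exact hlt
    have h2 : O ∈ Xs σ y := (mem_Xs_tw B.frob hQ1 C1.mon k).1 h1
    exact absurd (hεn O (Or.inl h2) hn).1 (not_lt.2 hlt.le)
  have Cz : Cls σ n π α J (ε ^ 2 / β) z := by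
    refine ⟨hzm, hzn, hPz, ?_, ?_, ?_, ?_⟩
    · intro O hO
      rw [(hdz O hO).2]
    · intro O hO
      have hα := B.alpha_lt hO
      have h1 := C1.near O hO
      have hy1 : gn O (y - π) ≤ 1 := (pow_le_one_iff (by omega : K ≠ 0)).1 (h1.trans hα.le)
      have e : z - π = tw σ k (y - π) - (π - tw σ k π) + w := by
        rw [hz, tw_sub']; ring
      have b1 : gn O (tw σ k (y - π)) ≤ gn O (y - π) := by
        rw [gn_tw B.frob]
        exact pow_le_of_le_one zero_le hy1 (pow_ne_zero _ (by omega))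
      have b2 : gn O (π - tw σ k π) ≤ O.valuation α := by
        rw [B.content O (hPX O hO)]
        exact gn_sub_tw_le B.frob hQ1 hO.2.1.le k
      have b3 : gn O w ≤ O.valuation α := by rw [gwP O hO]; exact hαJ1 O hO
      have b : gn O (z - π) ≤ max (gn O (y - π)) (O.valuation α) := by
        rw [e]
        exact gn_add_le (gn_sub_le (b1.trans (le_max_left _ _)) (b2.trans (le_max_right _ _)))
          (b3.trans (le_max_right _ _))
      have b' : gn O (z - π) ^ K ≤ O.valuation α := by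
        refine (pow_le_pow_left' b K).trans ?_
        rcases max_choice (gn O (y - π)) (O.valuation α) with h' | h' <;> rw [h']
        · exact h1
        · exact pow_le_of_le_one zero_le hα.le (by omega)
      have b'' : gn O (z - π) ≤ 1 := (pow_le_one_iff (by omega : K ≠ 0)).1 (b'.trans hα.le)
      exact (pow_le_pow_right_of_le_one' b'' hKJ).trans b'
    · intro O hO
      have e : O.valuation (ε ^ 2 / β) = O.valuation α ^ J := by
        rw [map_div₀, map_pow, hεP O hO, hβ O (hPX O hO), (hdz O hO).2, pow_two]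
        exact mul_div_cancel_right₀ _ (pow_ne_zero _ (B.alpha_pos O).ne')
      rw [e]
      exact (pow_le_of_le_one zero_le (hαJlt O hO).le (by omega)).trans (hαJ1 O hO)
    · intro O hO hn
      have hX : O ∈ XX f := B.world z hzm hzn hO
      have h1 := hεz O hO hn
      have hβv : 0 < O.valuation β := zero_lt_iff.2 ((Valuation.ne_zero_iff _).2 hβ0)
      have hβ1 : O.valuation β < 1 := by rw [hβ O hX]; exact hO.2.1
      rw [map_div₀, map_pow, one_lt_div₀ hβv]
      exact hβ1.trans_le (one_le_pow_of_one_le' h1 2)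
  refine ⟨z, k, ⟨J, hJ1, _, Cz⟩, fun O hO => (hdw O).trans (hdz O hO).1, ⟨hsep, ?_, ?_, ?_⟩, ⟨hsep', ?_, ?_, ?_⟩⟩
  · exact fun O hO => (hfine C1 O hO).1
  · exact fun O hO => (hfine C1 O hO).2.1
  · exact fun O hO => (hdw O).trans (hfine C1 O hO).2.2
  · exact fun O hO => (hfine C2 O hO).1
  · exact fun O hO => (hfine C2 O hO).2.1
  · exact fun O hO => (hdw O).trans (hfine C2 O hO).2.2

end Wor51
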