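import Pool.Agent.LibWor51.Cls

/-!
Steinberg pairs: `STStatement`. Bounding of the contents of three collinear vectors, and the construction of `y, z`.
-/

namespace Wor51

open Polynomial

variable {F : Type*} [Field F] {O : ValuationSubring F}

theorem SameDir.neg {g g' : F[X]} (h : SameDir O g g') : SameDir O (-g) (-g') := by
  obtain ⟨a, ha, h⟩ := h
  refine ⟨a, ha, ?_⟩
  have e : -g' - C a * -g = -(g' - C a * g) := by ring
  rwa [e, gn_neg, gn_neg]

theorem SameDir.neg_right {g g' : F[X]} (h : SameDir O g g') : SameDir O g (-g') := by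
  obtain ⟨a, ha, h⟩ := h
  refine ⟨-a, neg_ne_zero.2 ha, ?_⟩
  have e : -g' - C (-a) * g = -(g' - C a * g) := by rw [C_neg]; ring
  rwa [e, gn_neg, gn_neg]

/-- rotation of a zero sum with joint norm 1 -/
theorem max_rot {a b c : F[X]} (hs : a + b + c = 0) (h : max (gn O a) (gn O b) = 1) :
    max (gn O b) (gn O c) = 1 := by
  have ha : gn O a ≤ 1 := h ▸ le_max_left _ _
  have hb : gn O b ≤ 1 := h ▸ le_max_right _ _
  have hc : gn O c ≤ 1 := by
    have e : c = -(a + b) := by linear_combination hs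
    rw [e, gn_neg]; exact gn_add_le ha hb
  apply le_antisymm (max_le hb hc)
  by_contra hlt
  rw [not_le, max_lt_iff] at hlt
  have h1 : gn O a < 1 := by
    have e : a = -(b + c) := by linear_combination hs
    rw [e, gn_neg]; exact gn_add_lt hlt.1 hlt.2
  have := max_lt h1 hlt.1
  rw [h] at this
  exact lt_irrefl _ this

variable {f : F[X]} {n : ℕ} {P : Set (ValuationSubring F)} {α : F}

theorem bound_step (hdiv : Div F) (hf : f.Monic) (hD : 1 ≤ f.natDegree) (hP : P ⊆ XX f)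
    (hne : P.Nonempty) (hα : ∀ O ∈ P, O.valuation α < 1) {a b c : F[X]}
    (ha : IsV n a) (hb : IsV n b) (hc : IsV n c) (hs : a + b + c = 0)
    (hab : ∀ O ∈ P, max (gn O a) (gn O b) = 1) :
    ∃ a' b' : F[X], IsV n a' ∧ IsV n b' ∧ a' + b' + c = 0 ∧ ∀ O ∈ P, SameDir O a a' ∧ SameDir O b b' ∧
      gn O a' = max (gn O a) (O.valuation α) ∧ gn O b' = gn O b := by
  obtain ⟨ta, ta0, hta⟩ := exists_content hdiv hf hD a
  obtain ⟨tb, tb0, htb⟩ := exists_content hdiv hf hD b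
  obtain ⟨tc, tc0, htc⟩ := exists_content hdiv hf hD c
  have ta0 := ta0 ha.1
  have tb0 := tb0 hb.1
  have tc0 := tc0 hc.1
  obtain ⟨r, hr1, hr⟩ := exists_sr hdiv hf hD ta (tb * tc * α)
  set B := tb * tc * α with hB
  have hv0 : ∀ O : ValuationSubring F, O.valuation ta ≠ 0 := fun O => (Valuation.ne_zero_iff _).2 ta0
  obtain ⟨O₀, hO₀⟩ := hne
  have hsum0 : ta + r * B ≠ 0 := by
    intro h0
    have h1 := hr O₀ (hP hO₀)
    rw [h0, map_zero] at h1
    exact hv0 O₀ (le_antisymm (h1 ▸ le_max_left _ _) zero_le)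
  have key : ∀ O ∈ P, SameDir O a (C ((ta + r * B) / ta) * a) ∧ SameDir O b (b - C (r * B / ta) * a) ∧
      gn O (C ((ta + r * B) / ta) * a) = max (gn O a) (O.valuation α) ∧
      gn O (b - C (r * B / ta) * a) = gn O b := by
    intro O hO
    have eA := hta O (hP hO)
    have eB := htb O (hP hO)
    have eC := htc O (hP hO)
    have hbc := max_rot hs (hab O hO)
    have hb1 : gn O b ≤ 1 := hab O hO ▸ le_max_right _ _
    have hc1 : gn O c ≤ 1 := hbc ▸ le_max_right _ _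
    have hvB : O.valuation B = gn O b * gn O c * O.valuation α := by
      rw [hB, map_mul, map_mul, eB, eC]
    have h1 : gn O (C (r * B / ta) * a) = O.valuation r * O.valuation B := by
      rw [gn_C_mul, map_div₀, map_mul, ← eA, div_mul_cancel₀ _ (hv0 O)]
    have h2 : gn O (C (r * B / ta) * a) < gn O b := by
      rw [h1, hvB]
      calc O.valuation r * (gn O b * gn O c * O.valuation α)
          ≤ 1 * (gn O b * gn O c * O.valuation α) := mul_le_mul_left (hr1 O (hP hO)) _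
        _ = gn O b * (gn O c * O.valuation α) := by rw [one_mul, mul_assoc]
        _ ≤ gn O b * (1 * O.valuation α) := mul_le_mul_right (mul_le_mul_left hc1 _) _
        _ = gn O b * O.valuation α := by rw [one_mul]
        _ < gn O b * 1 := (mul_lt_mul_iff_right₀ (gn_pos hb.1)).2 (hα O hO)
        _ = gn O b := mul_one _
    refine ⟨SameDir.C_mul (div_ne_zero hsum0 ta0) ha.1, SameDir.of_sub_lt ?_, ?_, gn_sub_of_lt h2⟩
    · rwa [sub_sub_cancel_left, gn_neg]
    · rw [gn_C_mul, map_div₀, ← eA, div_mul_cancel₀ _ (hv0 O), hr O (hP hO)]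
      rcases lt_or_eq_of_le (show O.valuation ta ≤ 1 from eA ▸ (hab O hO ▸ le_max_left _ _)) with hlt | heq
      · have hb2 : gn O b = 1 := by
          have := hab O hO
          rw [← eA] at this
          rcases le_total (O.valuation ta) (gn O b) with h | h
          · rwa [max_eq_right h] at this
          · rw [max_eq_left h] at this; exact absurd this hlt.ne
        have hac : max (gn O c) (gn O a) = 1 := max_rot (by linear_combination hs) hbc
        have hc2 : gn O c = 1 := by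
          rw [← eA] at hac
          rcases le_total (gn O c) (O.valuation ta) with h | h
          · rw [max_eq_right h] at hac; exact absurd hac hlt.ne
          · rwa [max_eq_left h] at hac
        rw [hvB, hb2, hc2, one_mul, one_mul]
      · rw [heq, hvB, max_eq_left, max_eq_left (hα O hO).le]
        calc gn O b * gn O c * O.valuation α ≤ 1 * 1 * O.valuation α :=
              mul_le_mul_left (mul_le_mul' hb1 hc1) _
          _ = O.valuation α := by rw [one_mul, one_mul]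
          _ ≤ 1 := (hα O hO).le
  refine ⟨C ((ta + r * B) / ta) * a, b - C (r * B / ta) * a, ⟨?_, ?_⟩, ⟨?_, ?_⟩, ?_, key⟩
  · exact mul_ne_zero (by rw [Ne, C_eq_zero]; exact div_ne_zero hsum0 ta0) ha.1
  · rw [degree_C_mul (div_ne_zero hsum0 ta0)]; exact ha.2
  · exact (key O₀ hO₀).2.1.symm.ne_zero
  · refine (degree_sub_le _ _).trans_lt (max_lt hb.2 ?_)
    exact (degree_mul_le _ _).trans_lt (by
      refine lt_of_le_of_lt (add_le_add degree_C_le le_rfl) ?_
      rw [zero_add]; exact ha.2)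
  · rw [add_div, div_self ta0, C_add, C_1]
    linear_combination hs

theorem exists_bounded (hdiv : Div F) (hf : f.Monic) (hD : 1 ≤ f.natDegree) (hP : P ⊆ XX f)
    (hne : P.Nonempty) (hα : ∀ O ∈ P, O.valuation α < 1) {a b c : F[X]}
    (ha : IsV n a) (hb : IsV n b) (hc : IsV n c) (hs : a + b + c = 0) :
    ∃ a' b' c' : F[X], IsV n a' ∧ IsV n b' ∧ IsV n c' ∧ a' + b' + c' = 0 ∧
      ∀ O ∈ P, SameDir O a a' ∧ SameDir O b b' ∧ SameDir O c c' ∧
        (O.valuation α ≤ gn O a' ∧ gn O a' ≤ 1) ∧ (O.valuation α ≤ gn O b' ∧ gn O b' ≤ 1) ∧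
        (O.valuation α ≤ gn O c' ∧ gn O c' ≤ 1) := by
  obtain ⟨ta, ta0, hta⟩ := exists_content hdiv hf hD a
  obtain ⟨tb, _, htb⟩ := exists_content hdiv hf hD b
  obtain ⟨t, t0, ht⟩ := exists_max hdiv hf hD ta tb
  have t0 := t0 (Or.inl (ta0 ha.1))
  have hVt : ∀ {g : F[X]}, IsV n g → IsV n (C t⁻¹ * g) := fun {g} hg =>
    ⟨mul_ne_zero (by rw [Ne, C_eq_zero]; exact inv_ne_zero t0) hg.1, by
      rw [degree_C_mul (inv_ne_zero t0)]; exact hg.2⟩
  have hDt : ∀ (O : ValuationSubring F) {g : F[X]}, IsV n g → SameDir O g (C t⁻¹ * g) := fun O g hg =>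
    SameDir.C_mul (inv_ne_zero t0) hg.1
  have hs1 : C t⁻¹ * a + C t⁻¹ * b + C t⁻¹ * c = 0 := by rw [← mul_add, ← mul_add, hs, mul_zero]
  have hab1 : ∀ O ∈ P, max (gn O (C t⁻¹ * a)) (gn O (C t⁻¹ * b)) = 1 := by
    intro O hO
    have hv : O.valuation t ≠ 0 := (Valuation.ne_zero_iff _).2 t0
    have e := ht O (hP hO)
    rw [hta O (hP hO), htb O (hP hO)] at e
    rw [gn_C_mul, gn_C_mul, map_inv₀]
    rcases le_total (gn O a) (gn O b) with h | h
    · rw [max_eq_right (mul_le_mul_right h _), ← max_eq_right h, ← e, inv_mul_cancel₀ hv]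
    · rw [max_eq_left (mul_le_mul_right h _), ← max_eq_left h, ← e, inv_mul_cancel₀ hv]
  obtain ⟨a1, b1, ha1, hb1, hsum1, h1⟩ := bound_step hdiv hf hD hP hne hα (hVt ha) (hVt hb) (hVt hc) hs1 hab1
  have hmax1 : ∀ O ∈ P, max (gn O a1) (gn O b1) = 1 := by
    intro O hO
    obtain ⟨_, _, e1, e2⟩ := h1 O hO
    rw [e1, e2, max_right_comm, hab1 O hO, max_eq_left (hα O hO).le]
  obtain ⟨b2, c2, hb2, hc2, hsum2, h2⟩ := bound_step hdiv hf hD hP hne hα hb1 (hVt hc) ha1
    (by linear_combination hsum1) (fun O hO => max_rot hsum1 (hmax1 O hO))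
  have hmax2 : ∀ O ∈ P, max (gn O b2) (gn O c2) = 1 := by
    intro O hO
    obtain ⟨_, _, e1, e2⟩ := h2 O hO
    rw [e1, e2, max_right_comm, max_rot hsum1 (hmax1 O hO), max_eq_left (hα O hO).le]
  obtain ⟨c3, a3, hc3, ha3, hsum3, h3⟩ := bound_step hdiv hf hD hP hne hα hc2 ha1 hb2
    (by linear_combination hsum2) (fun O hO => max_rot hsum2 (hmax2 O hO))
  refine ⟨a3, b2, c3, ha3, hb2, hc3, by linear_combination hsum3, fun O hO => ?_⟩
  obtain ⟨da, db, ea, eb⟩ := h1 O hO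
  obtain ⟨db2, dc2, eb2, ec2⟩ := h2 O hO
  obtain ⟨dc3, da3, ec3, ea3⟩ := h3 O hO
  have hm3 := max_rot (show b2 + c2 + a1 = 0 from hsum2) (hmax2 O hO)
  have hα1 := (hα O hO).le
  refine ⟨((hDt O ha).trans da).trans da3, ((hDt O hb).trans db).trans db2, ((hDt O hc).trans dc2).trans dc3,
    ⟨?_, ?_⟩, ⟨?_, ?_⟩, ⟨?_, ?_⟩⟩
  · rw [ea3, ea]; exact le_max_right _ _
  · rw [ea3]; exact hm3 ▸ le_max_right _ _
  · rw [eb2]; exact le_max_right _ _
  · exact hmax2 O hO ▸ le_max_left _ _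
  · rw [ec3]; exact le_max_right _ _
  · rw [ec3]; exact max_le (hm3 ▸ le_max_left _ _) hα1


/-! ### the pair -/

variable {σ : F →+* F} {Q : ℕ} {π : F[X]}

/-- directions of `z = π^(σ^2) + w`, where `w = d + small`, `a^3 ≤ gn d ≤ a^2`, `small ≤ a^4` -/
theorem pair_local (hQ : 2 ≤ Q) (hσ : ∀ x, σ x = x ^ Q) {O : ValuationSubring F} {a : O.ValueGroup}
    (ha0 : 0 < a) (ha1 : a < 1) (hπ : gn O (π - π.map σ) ≤ a) {w d : F[X]} (hwd : gn O (w - d) ≤ a ^ 4)
    (hd1 : a ^ 3 ≤ gn O d) (hd2 : gn O d ≤ a ^ 2) :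
    gn O w = gn O d ∧ gn O ((tw σ 2 π + w) - (tw σ 2 π + w).map σ) = gn O d ∧
      SameDir O d ((tw σ 2 π + w) - (tw σ 2 π + w).map σ) := by
  have h43 : a ^ 4 < a ^ 3 := pow_lt_pow_right_of_lt_one₀ ha0 ha1 (by norm_num)
  have h4d : a ^ 4 < gn O d := h43.trans_le hd1
  have e1 : gn O w = gn O d := by
    refine gn_eq_of_sub_lt ?_
    rw [gn_sub_comm]
    exact hwd.trans_lt h4d
  have h4Q : 4 ≤ Q ^ 2 := by nlinarith
  have h2 : gn O (tw σ 2 π - tw σ 3 π) ≤ a ^ 4 := by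
    have e : tw σ 2 π - tw σ 3 π = tw σ 2 (π - π.map σ) := by rw [tw_sub', ← tw_succ']
    rw [e, gn_tw hσ]
    calc gn O (π - π.map σ) ^ (Q ^ 2) ≤ a ^ (Q ^ 2) := pow_le_pow_left₀ zero_le hπ _
      _ ≤ a ^ 4 := pow_le_pow_right_of_le_one' ha1.le h4Q
  have h3 : gn O (w.map σ) ≤ a ^ 4 := by
    rw [gn_map hσ, e1]
    calc gn O d ^ Q ≤ (a ^ 2) ^ Q := pow_le_pow_left₀ zero_le hd2 _
      _ = a ^ (2 * Q) := by rw [← pow_mul]
      _ ≤ a ^ 4 := pow_le_pow_right_of_le_one' ha1.le (by omega)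
  have e2 : (tw σ 2 π + w) - (tw σ 2 π + w).map σ - d = (tw σ 2 π - tw σ 3 π) + (w - d) - w.map σ := by
    rw [Polynomial.map_add, ← tw_succ]; ring
  have h5 : gn O ((tw σ 2 π + w) - (tw σ 2 π + w).map σ - d) < gn O d := by
    rw [e2]
    exact (gn_sub_le (gn_add_le h2 hwd) h3).trans_lt h4d
  exact ⟨e1, gn_eq_of_sub_lt (by rw [gn_sub_comm]; exact h5), SameDir.of_sub_lt h5⟩

theorem monic_add {y w : F[X]} (hy : y.Monic) (hyn : y.natDegree = n) (hw : w.degree < n) :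
    (y + w).Monic ∧ (y + w).natDegree = n := by
  have hd : y.degree = n := by rw [degree_eq_natDegree hy.ne_zero, hyn]
  have hlt : w.degree < y.degree := by rw [hd]; exact hw
  exact ⟨hy.add_of_left hlt, by rw [natDegree_add_eq_left_of_degree_lt hlt, hyn]⟩

theorem st (B : Base σ Q n f π α) : STStatement σ n π α := by
  intro g h hg hh hgh
  have hPX : Xs σ π ⊆ XX f := B.world π B.mon B.deg
  have hcon : ∀ O ∈ Xs σ π, O.valuation α = gn O (π - π.map σ) := fun O hO => B.content O (hPX hO)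
  have hα : ∀ O ∈ Xs σ π, O.valuation α < 1 := fun O hO => by rw [hcon O hO]; exact hO.2.1
  have hα0 : ∀ O : ValuationSubring F, 0 < O.valuation α := fun O =>
    zero_lt_iff.2 ((Valuation.ne_zero_iff _).2 B.alpha_ne)
  have hσ := B.frob
  have hQ1 : 1 ≤ Q := le_trans (by norm_num) B.two_le
  obtain ⟨O₀, hO₀⟩ := B.nonempty
  obtain ⟨g', h', c', hg', hh', hc', hs', hD⟩ := exists_bounded B.div B.fmon B.fdeg hPX B.nonempty hα hg hh
    (show IsV n (-(g + h)) from ⟨neg_ne_zero.2 hgh.1, by rw [degree_neg]; exact hgh.2⟩) (by ring)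
  have hc'e : g' + h' = -c' := by linear_combination hs'
  obtain ⟨th, th0, hth⟩ := exists_content B.div B.fmon B.fdeg h'
  have th0 := th0 hh'.1
  have hdeg2 : ∀ {u : F[X]} (x : F), IsV n u → (C x * u).degree < n := fun {u} x hu =>
    (degree_mul_le _ _).trans_lt (lt_of_le_of_lt (add_le_add degree_C_le le_rfl) (by
      rw [zero_add]; exact hu.2))
  -- the first member
  set w := C (α ^ 2) * g' with hw
  set y := tw σ 2 π + w with hy
  have hwdeg : w.degree < n := hdeg2 (α ^ 2) hg'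
  have htwm : (tw σ 2 π).Monic := monic_tw (fr := σ) B.mon 2
  have htwd : (tw σ 2 π).natDegree = n := by rw [natDegree_tw]; exact B.deg
  obtain ⟨ymon, ydeg⟩ := monic_add htwm htwd hwdeg
  rw [← hy] at ymon ydeg
  have hdegeq : ∀ {u : F[X]}, u.Monic → u.natDegree = n → u.degree = n := fun {u} hu hun => by
    rw [degree_eq_natDegree hu.ne_zero, hun]
  -- bounds on P
  have hgw : ∀ O ∈ Xs σ π, gn O w = O.valuation α ^ 2 * gn O g' := fun O _ => by
    rw [hw, gn_C_mul, map_pow]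
  have hb : ∀ O ∈ Xs σ π, ∀ {u : F[X]}, O.valuation α ≤ gn O u → gn O u ≤ 1 →
      O.valuation α ^ 3 ≤ O.valuation α ^ 2 * gn O u ∧ O.valuation α ^ 2 * gn O u ≤ O.valuation α ^ 2 := by
    intro O _ u h1 h2
    constructor
    · calc O.valuation α ^ 3 = O.valuation α ^ 2 * O.valuation α := pow_succ _ _
        _ ≤ _ := mul_le_mul_right h1 _
    · calc O.valuation α ^ 2 * gn O u ≤ O.valuation α ^ 2 * 1 := mul_le_mul_right h2 _
        _ = _ := mul_one _
  have hlocy : ∀ O ∈ Xs σ π, gn O (y - y.map σ) = gn O w ∧ SameDir O w (y - y.map σ) := by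
    intro O hO
    obtain ⟨_, _, _, ⟨h1, h2⟩, _, _⟩ := hD O hO
    obtain ⟨h3, h4⟩ := hb O hO h1 h2
    have := pair_local B.two_le hσ (hα0 O) (hα O hO) (hcon O hO).symm.le (w := w) (d := w)
      (by rw [sub_self, gn_zero]; exact zero_le) (by rw [hgw O hO]; exact h3) (by rw [hgw O hO]; exact h4)
    exact ⟨this.2.1, this.2.2⟩
  have hw1 : ∀ O ∈ Xs σ π, gn O w ≤ O.valuation α ^ 2 := fun O hO => by
    obtain ⟨_, _, _, ⟨h1, h2⟩, _, _⟩ := hD O hO
    rw [hgw O hO]; exact (hb O hO h1 h2).2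
  have hw3 : ∀ O ∈ Xs σ π, O.valuation α ^ 3 ≤ gn O w := fun O hO => by
    obtain ⟨_, _, _, ⟨h1, h2⟩, _, _⟩ := hD O hO
    rw [hgw O hO]; exact (hb O hO h1 h2).1
  have ha2 : ∀ O ∈ Xs σ π, O.valuation α ^ 2 < 1 := fun O hO => pow_lt_one₀ zero_le (hα O hO) (by norm_num)
  -- `P ⊆ Xs y`
  have hsub : ∀ {u : F[X]}, u.degree < n → (∀ O ∈ Xs σ π, gn O u < 1) → Xs σ π ⊆ Xs σ (tw σ 2 π + u) := by
    intro u hu hlt O hO
    obtain ⟨m1, m2⟩ := monic_add htwm htwd hu
    refine mem_Xs_congr hσ hQ1 htwm m1 (by rw [hdegeq htwm htwd, hdegeq m1 m2]) ?_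
      ((mem_Xs_tw hσ hQ1 B.mon 2).2 hO)
    rw [sub_add_cancel_left, gn_neg]
    exact hlt O hO
  have ysub : Xs σ π ⊆ Xs σ y := hsub hwdeg fun O hO => (hw1 O hO).trans_lt (ha2 O hO)
  -- contents
  obtain ⟨δ, δ0, hδ⟩ := exists_content B.div B.fmon B.fdeg w
  obtain ⟨β, β0, hβ⟩ := exists_content B.div B.fmon B.fdeg (y - y.map σ)
  have w0 : w ≠ 0 := (hlocy O₀ hO₀).2.ne_zero
  have yy0 : y - y.map σ ≠ 0 := (hlocy O₀ hO₀).2.symm.ne_zero
  have δ0 := δ0 w0
  have β0 := β0 yy0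
  have yX : Xs σ y ⊆ XX f := B.world y ymon ydeg
  have hδoff : ∀ O ∈ Xs σ y, O ∉ Xs σ π → 1 ≤ gn O w := by
    intro O hO hn
    by_contra hlt
    rw [not_le] at hlt
    apply hn
    refine (mem_Xs_tw hσ hQ1 B.mon 2).1 ?_
    refine mem_Xs_congr hσ hQ1 ymon htwm (by rw [hdegeq htwm htwd, hdegeq ymon ydeg]) ?_ hO
    rw [hy, add_sub_cancel_left]
    exact hlt
  set γ := δ ^ 2 / β with hγ
  have hvβ : ∀ O : ValuationSubring F, 0 < O.valuation β := fun O =>
    zero_lt_iff.2 ((Valuation.ne_zero_iff _).2 β0)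
  have hγon : ∀ O ∈ Xs σ π, O.valuation γ ≤ O.valuation α ^ 2 := by
    intro O hO
    have e1 : O.valuation δ = gn O w := hδ O (hPX hO)
    have e2 : O.valuation β = gn O w := by rw [hβ O (hPX hO), (hlocy O hO).1]
    rw [hγ, map_div₀, map_pow, e1, e2, sq, mul_div_assoc, div_self (gn_ne_zero w0), mul_one]
    exact hw1 O hO
  have hγoff : ∀ O ∈ Xs σ y, O ∉ Xs σ π → 1 < O.valuation γ := by
    intro O hO hn
    have e1 : O.valuation δ = gn O w := hδ O (yX hO)
    have e2 : O.valuation β < 1 := by rw [hβ O (yX hO)]; exact hO.2.1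
    rw [hγ, map_div₀, map_pow, e1, one_lt_div₀ (hvβ O)]
    exact e2.trans_le (one_le_pow₀ (hδoff O hO hn))
  have ycls : Cls σ n π α 3 γ y := by
    refine ⟨ymon, ydeg, ysub, fun O hO => ?_, fun O hO => ?_, fun O hO => ?_, hγoff⟩
    · rw [(hlocy O hO).1]; exact hw3 O hO
    · have h1 : gn O (y - π) ≤ O.valuation α := by
        have e : y - π = (tw σ 2 π - π) + w := by rw [hy]; ring
        rw [e]
        refine gn_add_le ?_ ?_
        · rw [gn_sub_comm, hcon O hO]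
          exact gn_sub_tw_le hσ hQ1 hO.2.1.le 2
        · exact (hw1 O hO).trans (pow_le_of_le_one zero_le (hα O hO).le (by norm_num))
      exact (pow_le_pow_left₀ zero_le h1 3).trans (pow_le_of_le_one zero_le (hα O hO).le (by norm_num))
    · exact (pow_le_pow_left₀ zero_le (hγon O hO) 3).trans (by
        rw [← pow_mul]; exact pow_le_of_le_one zero_le (hα O hO).le (by norm_num))
  -- the second member
  obtain ⟨s, s0, hs⟩ := exists_max B.div B.fmon B.fdeg 1 (α ^ 2 * th)⁻¹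
  have s0 := s0 (Or.inl one_ne_zero)
  set ρ := s * γ ^ 3 with hρ
  have hath : α ^ 2 * th ≠ 0 := mul_ne_zero (pow_ne_zero _ B.alpha_ne) th0
  have hvath : ∀ O : ValuationSubring F, 0 < O.valuation (α ^ 2 * th) := fun O =>
    zero_lt_iff.2 ((Valuation.ne_zero_iff _).2 hath)
  have hρon : ∀ O ∈ Xs σ π, O.valuation ρ ≤ O.valuation α ^ 2 := by
    intro O hO
    obtain ⟨_, _, _, _, ⟨h1, h2⟩, _⟩ := hD O hO
    have h3 := (hb O hO h1 h2).1
    have e1 : O.valuation (α ^ 2 * th) = O.valuation α ^ 2 * gn O h' := by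
      rw [map_mul, map_pow, hth O (hPX hO)]
    have h4 : O.valuation α ^ 3 ≤ O.valuation (α ^ 2 * th) := by rw [e1]; exact h3
    have ha3 : 0 < O.valuation α ^ 3 := pow_pos (hα0 O) 3
    have h5 : O.valuation s ≤ (O.valuation α ^ 3)⁻¹ := by
      rw [hs O (hPX hO), map_one, map_inv₀]
      refine max_le ?_ ?_
      · exact (one_le_inv₀ ha3).2 (pow_le_one' (hα O hO).le 3)
      · exact (inv_le_inv₀ (hvath O) ha3).2 h4
    rw [hρ, map_mul, map_pow]
    calc O.valuation s * O.valuation γ ^ 3 ≤ (O.valuation α ^ 3)⁻¹ * (O.valuation α ^ 2) ^ 3 :=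
          mul_le_mul' h5 (pow_le_pow_left₀ zero_le (hγon O hO) 3)
      _ = (O.valuation α ^ 3)⁻¹ * (O.valuation α ^ 3 * O.valuation α ^ 3) := by
          rw [← pow_mul, ← pow_add]
      _ = O.valuation α ^ 3 := inv_mul_cancel_left₀ ha3.ne' _
      _ ≤ O.valuation α ^ 2 := pow_le_pow_right_of_le_one' (hα O hO).le (by norm_num)
  have hρ1 : ∀ O ∈ Xs σ π, O.valuation (1 + ρ) = 1 := fun O hO => by
    rw [Valuation.map_add_eq_of_lt_left] <;> rw [map_one]
    exact (hρon O hO).trans_lt (ha2 O hO)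
  set w₂ := w + C (α ^ 2 * (1 + ρ)) * h' with hw₂
  set z := tw σ 2 π + w₂ with hz
  have hw₂deg : w₂.degree < n := (degree_add_le _ _).trans_lt (max_lt hwdeg (hdeg2 _ hh'))
  obtain ⟨zmon, zdeg⟩ := monic_add htwm htwd hw₂deg
  rw [← hz] at zmon zdeg
  have hzy : z - y = C (α ^ 2 * (1 + ρ)) * h' := by rw [hz, hy, hw₂]; ring
  have hlocz : ∀ O ∈ Xs σ π, gn O w₂ = gn O (C (α ^ 2) * (g' + h')) ∧
      gn O (z - z.map σ) = gn O (C (α ^ 2) * (g' + h')) ∧ SameDir O (C (α ^ 2) * (g' + h')) (z - z.map σ) ∧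
      gn O (w₂ - C (α ^ 2) * (g' + h')) ≤ O.valuation α ^ 4 ∧
      O.valuation α ^ 3 ≤ gn O (C (α ^ 2) * (g' + h')) ∧
      gn O (C (α ^ 2) * (g' + h')) ≤ O.valuation α ^ 2 := by
    intro O hO
    obtain ⟨_, _, _, _, ⟨h1, h2⟩, ⟨h3, h4⟩⟩ := hD O hO
    have e : gn O (C (α ^ 2) * (g' + h')) = O.valuation α ^ 2 * gn O c' := by
      rw [gn_C_mul, map_pow, hc'e, gn_neg]
    obtain ⟨h5, h6⟩ := hb O hO h3 h4
    rw [← e] at h5 h6
    have h7 : gn O (w₂ - C (α ^ 2) * (g' + h')) ≤ O.valuation α ^ 4 := by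
      have e2 : w₂ - C (α ^ 2) * (g' + h') = C (α ^ 2 * ρ) * h' := by
        rw [hw₂, hw, mul_add, mul_one, C_add]; ring
      rw [e2, gn_C_mul, map_mul, map_pow]
      calc O.valuation α ^ 2 * O.valuation ρ * gn O h'
          ≤ O.valuation α ^ 2 * O.valuation α ^ 2 * 1 :=
            mul_le_mul' (mul_le_mul_right (hρon O hO) _) h2
        _ = O.valuation α ^ 4 := by rw [mul_one, ← pow_add]
    have h8 := pair_local B.two_le hσ (hα0 O) (hα O hO) (hcon O hO).symm.le h7 h5 h6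
    exact ⟨h8.1, h8.2.1, h8.2.2, h7, h5, h6⟩
  have zsub : Xs σ π ⊆ Xs σ z := hsub hw₂deg fun O hO => by
    obtain ⟨e1, _, _, _, _, e2⟩ := hlocz O hO
    rw [e1]; exact e2.trans_lt (ha2 O hO)
  have hyzoff : ∀ O ∈ Xs σ y, O ∉ Xs σ π → 1 < gn O (z - y) := by
    intro O hO hn
    have h1 := hγoff O hO hn
    have h2 : 1 < O.valuation γ ^ 3 := one_lt_pow₀ h1 (by norm_num)
    have h3 : 1 ≤ O.valuation s := by
      rw [hs O (yX hO), map_one]; exact le_max_left _ _
    have h4 : (O.valuation (α ^ 2 * th))⁻¹ ≤ O.valuation s := by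
      rw [hs O (yX hO), map_inv₀]; exact le_max_right _ _
    have h5 : 1 < O.valuation ρ := by
      rw [hρ, map_mul, map_pow]
      calc (1 : O.ValueGroup) < O.valuation γ ^ 3 := h2
        _ = 1 * O.valuation γ ^ 3 := (one_mul _).symm
        _ ≤ _ := mul_le_mul_left h3 _
    have h6 : O.valuation (1 + ρ) = O.valuation ρ := by
      rw [Valuation.map_add_eq_of_lt_right]; rwa [map_one]
    rw [hzy, gn_C_mul, ← hth O (yX hO), map_mul, h6]
    calc (1 : O.ValueGroup) < O.valuation γ ^ 3 := h2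
      _ = (O.valuation (α ^ 2 * th) * (O.valuation (α ^ 2 * th))⁻¹) * O.valuation γ ^ 3 := by
          rw [mul_inv_cancel₀ (hvath O).ne', one_mul]
      _ ≤ (O.valuation (α ^ 2 * th) * O.valuation s) * O.valuation γ ^ 3 :=
          mul_le_mul_left (mul_le_mul_right h4 _) _
      _ = O.valuation (α ^ 2) * O.valuation ρ * O.valuation th := by
          rw [hρ, map_mul O.valuation s, map_pow O.valuation γ, map_mul O.valuation (α ^ 2)]
          ac_rfl
  have hzyoff : ∀ O ∈ Xs σ z, O ∉ Xs σ π → 1 ≤ gn O (z - y) := by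
    intro O hO hn
    by_contra hlt
    rw [not_le] at hlt
    have h1 : O ∈ Xs σ y :=
      mem_Xs_congr hσ hQ1 zmon ymon (by rw [hdegeq zmon zdeg, hdegeq ymon ydeg]) hlt hO
    exact absurd (hyzoff O h1 hn) (not_lt.2 hlt.le)
  obtain ⟨δz, δz0, hδz⟩ := exists_content B.div B.fmon B.fdeg (z - y)
  obtain ⟨βz, βz0, hβz⟩ := exists_content B.div B.fmon B.fdeg (z - z.map σ)
  have zz0 : z - z.map σ ≠ 0 := (hlocz O₀ hO₀).2.2.1.symm.ne_zero
  have βz0 := βz0 zz0
  have zX : Xs σ z ⊆ XX f := B.world z zmon zdeg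
  have hvβz : ∀ O : ValuationSubring F, 0 < O.valuation βz := fun O =>
    zero_lt_iff.2 ((Valuation.ne_zero_iff _).2 βz0)
  have hzyon : ∀ O ∈ Xs σ π, gn O (z - y) ≤ O.valuation α ^ 2 := by
    intro O hO
    obtain ⟨_, _, _, _, ⟨h1, h2⟩, _⟩ := hD O hO
    rw [hzy, gn_C_mul, map_mul, map_pow, hρ1 O hO, mul_one]
    exact (hb O hO h1 h2).2
  set γz := δz ^ 4 / βz with hγz
  have hγzon : ∀ O ∈ Xs σ π, O.valuation γz ≤ O.valuation α := by
    intro O hO
    obtain ⟨_, e1, _, _, e2, _⟩ := hlocz O hO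
    have ha3 : 0 < O.valuation α ^ 3 := pow_pos (hα0 O) 3
    rw [hγz, map_div₀, map_pow, hδz O (hPX hO), hβz O (hPX hO), e1]
    calc gn O (z - y) ^ 4 / gn O (C (α ^ 2) * (g' + h'))
        ≤ (O.valuation α ^ 2) ^ 4 / O.valuation α ^ 3 :=
          div_le_div₀ zero_le (pow_le_pow_left₀ zero_le (hzyon O hO) 4) ha3 e2
      _ = O.valuation α ^ 5 := by
          rw [← pow_mul, div_eq_iff ha3.ne', ← pow_add]
      _ ≤ O.valuation α := pow_le_of_le_one zero_le (hα O hO).le (by norm_num)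
  have hγzoff : ∀ O ∈ Xs σ z, O ∉ Xs σ π → 1 < O.valuation γz := by
    intro O hO hn
    have e2 : O.valuation βz < 1 := by rw [hβz O (zX hO)]; exact hO.2.1
    rw [hγz, map_div₀, map_pow, hδz O (zX hO), one_lt_div₀ (hvβz O)]
    exact e2.trans_le (one_le_pow₀ (hzyoff O hO hn))
  have zcls : Cls σ n π α 3 γz z := by
    refine ⟨zmon, zdeg, zsub, fun O hO => ?_, fun O hO => ?_, fun O hO => ?_, hγzoff⟩
    · rw [(hlocz O hO).2.1]; exact (hlocz O hO).2.2.2.2.1
    · have h1 : gn O (z - π) ≤ O.valuation α := by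
        have e : z - π = (tw σ 2 π - π) + w₂ := by rw [hz]; ring
        rw [e]
        refine gn_add_le ?_ ?_
        · rw [gn_sub_comm, hcon O hO]
          exact gn_sub_tw_le hσ hQ1 hO.2.1.le 2
        · rw [(hlocz O hO).1]
          exact (hlocz O hO).2.2.2.2.2.trans (pow_le_of_le_one zero_le (hα O hO).le (by norm_num))
      exact (pow_le_pow_left₀ zero_le h1 3).trans (pow_le_of_le_one zero_le (hα O hO).le (by norm_num))
    · exact (pow_le_pow_left₀ zero_le (hγzon O hO) 3).trans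
        (pow_le_of_le_one zero_le (hα O hO).le (by norm_num))
  have hα2 : α ^ 2 ≠ 0 := pow_ne_zero _ B.alpha_ne
  have hk0 : g' + h' ≠ 0 := by rw [hc'e]; exact neg_ne_zero.2 hc'.1
  have hdk : ∀ O ∈ Xs σ π, SameDir O (g + h) (C (α ^ 2) * (g' + h')) := by
    intro O hO
    have h1 := (hD O hO).2.2.1
    have h2 : SameDir O (g + h) (g' + h') := by
      have := h1.neg
      rwa [neg_neg, ← hc'e] at this
    exact h2.trans (SameDir.C_mul hα2 hk0)
  refine ⟨y, z, 1, ⟨3, by norm_num, γ, ycls⟩, ⟨3, by norm_num, γz, zcls⟩, ?_, ?_, ?_, ?_, ?_⟩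
  · rintro O (hO | hO) hn
    · rw [gn_sub_comm]; exact (hyzoff O hO hn).le
    · rw [gn_sub_comm]; exact hzyoff O hO hn
  · intro O hO
    exact ((hD O hO).1.trans (SameDir.C_mul hα2 hg'.1)).trans (hlocy O hO).2
  · intro O hO
    exact (hdk O hO).trans (hlocz O hO).2.2.1
  · intro O hO
    have e : y - z = -(C (α ^ 2 * (1 + ρ)) * h') := by rw [← hzy]; ring
    rw [e]
    have h1 : (1 + ρ) ≠ 0 := by
      intro h0
      have := hρ1 O hO
      rw [h0, map_zero] at this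
      exact zero_ne_one this
    exact ((hD O hO).2.1.trans (SameDir.C_mul (mul_ne_zero hα2 h1) hh'.1)).neg_right
  · intro O hO
    obtain ⟨_, _, _, h4, h5, h6⟩ := hlocz O hO
    have h43 : O.valuation α ^ 4 < O.valuation α ^ 3 :=
      pow_lt_pow_right_of_lt_one₀ (hα0 O) (hα O hO) (by norm_num)
    have h4Q : 4 ≤ Q ^ 2 := by nlinarith [B.two_le]
    have e : -(tw σ 1 y - z) - C (α ^ 2) * (g' + h') =
        (tw σ 2 π - tw σ 3 π) + (w₂ - C (α ^ 2) * (g' + h')) - w.map σ := by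
      rw [hz, hy, tw_one, Polynomial.map_add, ← tw_succ]; ring
    have h7 : gn O (tw σ 2 π - tw σ 3 π) ≤ O.valuation α ^ 4 := by
      have e : tw σ 2 π - tw σ 3 π = tw σ 2 (π - π.map σ) := by rw [tw_sub', ← tw_succ']
      rw [e, gn_tw hσ, ← hcon O hO]
      exact pow_le_pow_right_of_le_one' (hα O hO).le h4Q
    have h8 : gn O (w.map σ) ≤ O.valuation α ^ 4 := by
      rw [gn_map hσ]
      calc gn O w ^ Q ≤ (O.valuation α ^ 2) ^ Q := pow_le_pow_left₀ zero_le (hw1 O hO) _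
        _ = O.valuation α ^ (2 * Q) := by rw [← pow_mul]
        _ ≤ O.valuation α ^ 4 := pow_le_pow_right_of_le_one' (hα O hO).le (by have := B.two_le; omega)
    have h9 : SameDir O (C (α ^ 2) * (g' + h')) (-(tw σ 1 y - z)) := by
      refine SameDir.of_sub_lt ?_
      rw [e]
      exact (gn_sub_le (gn_add_le h7 h4) h8).trans_lt (h43.trans_le h5)
    have := ((hdk O hO).trans h9).neg_right
    rwa [neg_neg] at this

end Wor51
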