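import Pool.Agent.LibWor51.Loc

/-!
The class of neighbours of `π`, separated pairs, finer neighbours: definitions.
`P = Xs σ π`, `α` = content of `π - π^σ`.
-/

namespace Wor51

open Polynomial

variable {F : Type*} [Field F]

/-- the base data: `σ = (x ↦ x ^ Q)`, a world `XX f`, a nonconstant `π` of degree `n` with at least one place -/
structure Base (σ : F →+* F) (Q n : ℕ) (f π : F[X]) (α : F) : Prop where
  two_le : 2 ≤ Q
  frob : ∀ x, σ x = x ^ Q
  npos : 1 ≤ n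
  div : Div F
  fmon : f.Monic
  fdeg : 1 ≤ f.natDegree
  world : ∀ y : F[X], y.Monic → y.natDegree = n → Xs σ y ⊆ XX f
  mon : π.Monic
  deg : π.natDegree = n
  ne : π.map σ ≠ π
  nonempty : (Xs σ π).Nonempty
  content : ∀ O ∈ XX f, O.valuation α = gn O (π - π.map σ)
  alpha_ne : α ≠ 0

/-- the class of neighbours with explicit bounds -/
structure Cls (σ : F →+* F) (n : ℕ) (π : F[X]) (α : F) (K : ℕ) (γ : F) (y : F[X]) : Prop where
  mon : y.Monic
  deg : y.natDegree = n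
  sub : Xs σ π ⊆ Xs σ y
  om : ∀ O ∈ Xs σ π, O.valuation α ^ K ≤ gn O (y - y.map σ)
  near : ∀ O ∈ Xs σ π, gn O (y - π) ^ K ≤ O.valuation α
  cut : ∀ O ∈ Xs σ π, O.valuation γ ^ K ≤ O.valuation α
  off : ∀ O ∈ Xs σ y, O ∉ Xs σ π → 1 < O.valuation γ

/-- `y` is a neighbour of `π` -/
def InC (σ : F →+* F) (n : ℕ) (π : F[X]) (α : F) (y : F[X]) : Prop :=
  ∃ K : ℕ, 1 ≤ K ∧ ∃ γ : F, Cls σ n π α K γ y

/-- `y` and `z` are far from each other at all places of `y` and of `z` outside `P` -/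
def Sep (σ : F →+* F) (P : Set (ValuationSubring F)) (y z : F[X]) : Prop :=
  ∀ O : ValuationSubring F, O ∈ Xs σ y ∨ O ∈ Xs σ z → O ∉ P → 1 ≤ gn O (y - z)

/-- `z` is finer than `y` at `P`, with direction `h`, visible from exponent `k` on -/
structure Finer (σ : F →+* F) (P : Set (ValuationSubring F)) (y z h : F[X]) (k : ℕ) : Prop where
  sep : Sep σ P y z
  dir0 : ∀ O ∈ P, SameDir O (y - y.map σ) (y - z)
  dir1 : ∀ O ∈ P, SameDir O ((y - y.map σ).map σ) (y.map σ - z)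
  dirk : ∀ O ∈ P, SameDir O h (tw σ k y - z)

/-- (NB) existence of common finer neighbours, as a statement -/
def NBStatement (σ : F →+* F) (n : ℕ) (π : F[X]) (α : F) : Prop :=
  ∀ y y' h : F[X], InC σ n π α y → InC σ n π α y' → IsV n h →
    ∃ z, ∃ k : ℕ, InC σ n π α z ∧ (∀ O ∈ Xs σ π, SameDir O h (z - z.map σ)) ∧
      Finer σ (Xs σ π) y z h k ∧ Finer σ (Xs σ π) y' z h k

/-- (ST) existence of Steinberg pairs, as a statement: `g + h ≠ 0`, `π_a` has direction `g`, `π_b` has direction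
`g + h`, `π_a - π_b` has direction `h` -/
def STStatement (σ : F →+* F) (n : ℕ) (π : F[X]) (α : F) : Prop :=
  ∀ g h : F[X], IsV n g → IsV n h → IsV n (g + h) →
    ∃ y z, ∃ k : ℕ, InC σ n π α y ∧ InC σ n π α z ∧ Sep σ (Xs σ π) y z ∧
      (∀ O ∈ Xs σ π, SameDir O g (y - y.map σ)) ∧ (∀ O ∈ Xs σ π, SameDir O (g + h) (z - z.map σ)) ∧
      (∀ O ∈ Xs σ π, SameDir O h (y - z)) ∧ (∀ O ∈ Xs σ π, SameDir O (g + h) (tw σ k y - z))

variable {σ : F →+* F} {Q n : ℕ} {f π : F[X]} {α : F}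

/-- bounds can be enlarged -/
theorem Cls.mono {K K' : ℕ} {γ : F} {y : F[X]} (B : Base σ Q n f π α) (hK : 1 ≤ K) (h : Cls σ n π α K γ y)
    (hKK : K ≤ K') : Cls σ n π α K' γ y := by
  have hα : ∀ O ∈ Xs σ π, O.valuation α ≤ 1 := by
    intro O hO
    rw [B.content O (B.world π B.mon B.deg hO)]
    exact hO.2.1.le
  refine ⟨h.mon, h.deg, h.sub, fun O hO => ?_, fun O hO => ?_, fun O hO => ?_, h.off⟩
  · exact (pow_le_pow_right_of_le_one' (hα O hO) hKK).trans (h.om O hO)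
  · have h1 := h.near O hO
    have h2 : gn O (y - π) ≤ 1 := (pow_le_one_iff (by omega : K ≠ 0)).1 (h1.trans (hα O hO))
    exact (pow_le_pow_right_of_le_one' h2 hKK).trans h1
  · have h1 := h.cut O hO
    have h2 : O.valuation γ ≤ 1 := (pow_le_one_iff (by omega : K ≠ 0)).1 (h1.trans (hα O hO))
    exact (pow_le_pow_right_of_le_one' h2 hKK).trans h1

/-- `π` itself is in the class -/
theorem InC.self (B : Base σ Q n f π α) : InC σ n π α π := by
  refine ⟨1, le_rfl, α, B.mon, B.deg, le_rfl, fun O hO => ?_, fun O hO => ?_, fun O hO => ?_, fun O h h' => absurd h h'⟩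
  · rw [pow_one, B.content O (B.world π B.mon B.deg hO)]
  · rw [sub_self, gn_zero, pow_one]; exact zero_le
  · rw [pow_one]

/-- the local data of a neighbour -/
theorem InC.loc (B : Base σ Q n f π α) {A : Type*} [AddCommGroup A] {y : F[X]} {c : F[X] → A}
    (h : InC σ n π α y) (hc : CD σ Q n y c) : Loc σ Q n (Xs σ π) y c := by
  obtain ⟨K, hK, γ, h⟩ := h
  have hα : ∀ O ∈ Xs σ π, O.valuation α < 1 := by
    intro O hO
    rw [B.content O (B.world π B.mon B.deg hO)]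
    exact hO.2.1
  have hγ : Gam (Xs σ π) (Xs σ y) γ :=
    ⟨fun O hO => (pow_lt_one_iff (by omega : K ≠ 0)).1 ((h.cut O hO).trans_lt (hα O hO)), h.off⟩
  exact ⟨B.npos, h.mon, h.deg, h.sub, hc, fun k hk =>
    exists_rep B.div B.fmon B.fdeg h.sub (B.world y h.mon h.deg) B.nonempty B.npos hγ hk⟩

end Wor51
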