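import Pool.Agent.LibWor51.Form
import Pool.Agent.LibG64.Defs

/-!
Bridge to the definitions of `LibG64` and the existence of a world containing all places of all monic polynomials of
degree `n ≥ 2`; cutoffs in that world.
-/

namespace Wor51

open Polynomial

variable {F : Type*} [Field F]

theorem gn_eq_nrm (O : ValuationSubring F) (g : F[X]) : gn O g = Pool.Agent.LibG64.nrm O.valuation g := rfl

theorem tw_eq (σ : F →+* F) (i : ℕ) (y : F[X]) : tw σ i y = Pool.Agent.LibG64.tw σ i y := rfl

theorem mulAt_iff (O : ValuationSubring F) (y : F[X]) : MulAt O y ↔ Pool.Agent.LibG64.Mult O.valuation y := by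
  constructor
  · intro h f g hf hg
    by_cases f0 : f = 0
    · subst f0
      rw [zero_mul, zero_modByMonic, ← gn_eq_nrm, gn_zero, zero_mul]
    by_cases g0 : g = 0
    · subst g0
      rw [mul_zero, zero_modByMonic, ← gn_eq_nrm, gn_zero, mul_zero]
    exact h f g f0 g0 hf hg
  · intro h f g _ _ hf hg
    exact h f g hf hg

theorem sameDir_iff {O : ValuationSubring F} {g g' : F[X]} :
    SameDir O g g' ↔ Pool.Agent.LibG64.Dir O.valuation g' g := by
  constructor
  · rintro ⟨a, _, h⟩
    exact ⟨a, h⟩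
  · rintro ⟨a, h⟩
    refine ⟨a, ?_, h⟩
    rintro rfl
    rw [C_0, zero_mul, sub_zero] at h
    exact lt_irrefl _ h

theorem Xs_eq_Pl (σ : F →+* F) (y : F[X]) : Xs σ y = Pool.Agent.LibG64.Pl σ y := by
  ext O
  constructor
  · rintro ⟨a, b, c⟩
    exact ⟨a, b, (mulAt_iff O y).1 c⟩
  · rintro ⟨a, b, c⟩
    exact ⟨a, b, (mulAt_iff O y).2 c⟩

/-- `XX f` is a world -/
theorem world_XX {f : F[X]} (hdiv : Pool.Agent.LibG64.Div F) (hf : f.Monic) (hD : 1 ≤ f.natDegree) :
    Pool.Agent.LibG64.World (XX f) := by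
  have hdiv' : Div F := fun a m hm => hdiv m hm a
  exact ⟨fun a b => (exists_max hdiv' hf hD a b).imp fun _ h => h.2, fun a b => exists_sr hdiv' hf hD a b⟩

end Wor51

namespace Pool.Agent.LibG64

open Polynomial

variable {F : Type*} [Field F]

/-- There is a world containing the places of all monic polynomials of degree `n`. -/
theorem exists_world {p m n : ℕ} [Fact p.Prime] [CharP F p] (hdiv : Div F) {σ : F →+* F} (hσ : IsFrob σ (p ^ m))
    (hn : 2 ≤ n) : ∃ X : Set (ValuationSubring F), World X ∧ ∀ y, Mon n y → Pl σ y ⊆ X := by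
  have hm : 1 ≤ m := by
    rcases Nat.eq_zero_or_pos m with h | h
    · subst h
      have := hσ.two_le
      rw [pow_zero] at this
      omega
    · exact h
  obtain ⟨f, hf, hD, h⟩ := Wor51.exists_form (F := F) (p := p) (s := m) (n := n) hm hn σ hσ.pow
  refine ⟨Wor51.XX f, Wor51.world_XX hdiv hf hD, fun y hy => ?_⟩
  rw [← Wor51.Xs_eq_Pl]
  exact h y hy.1 hy.2

end Pool.Agent.LibG64
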