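import Pool.Agent.LibWor51.World

/-!
A universal constant form: `f` = minimal polynomial over `F_p` of a generator of the field with `Q ^ (n!)` elements.
All sets `Xs fr y`, `y` monic of degree `n ≥ 2`, are contained in `XX f`.
-/

namespace Wor51

open Polynomial Finset

/-- A monic polynomial with coefficients fixed by `x ↦ x ^ (p ^ s)` has a root in every field containing the field
with `p ^ (s * n!)` elements. -/
theorem exists_root_of_emb {p : ℕ} [hp : Fact p.Prime] {s n : ℕ} (hs : 1 ≤ s) (hn : 1 ≤ n) {k : Type*} [Field k]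
    [CharP k p] (ψ : GaloisField p (s * n.factorial) →+* k) {w : k[X]} (hw : w.Monic) (hwn : w.natDegree = n)
    (hfix : ∀ i, (w.coeff i) ^ (p ^ s) = w.coeff i) : ∃ η : k, w.eval η = 0 := by
  classical
  set M := s * n.factorial with hM
  have hM0 : M ≠ 0 := by
    have := n.factorial_pos
    rw [hM]
    exact Nat.mul_ne_zero (by omega) (by omega)
  have : CharP (AlgebraicClosure k) p := charP_of_injective_algebraMap (algebraMap k (AlgebraicClosure k)).injective p
  have : ExpChar (AlgebraicClosure k) p := ExpChar.prime hp.out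
  set w' := w.map (algebraMap k (AlgebraicClosure k)) with hw'
  have hw'm : w'.Monic := hw.map _
  have hw'n : w'.natDegree = n := by rw [hw', natDegree_map, hwn]
  obtain ⟨η, hη⟩ := IsAlgClosed.exists_root w' (by
    rw [degree_eq_natDegree hw'm.ne_zero, hw'n]
    exact_mod_cast (by omega : n ≠ 0))
  have hη0 : w'.eval η = 0 := hη
  set φ := iterateFrobenius (AlgebraicClosure k) p s with hφ
  have hφx : ∀ x, φ x = x ^ (p ^ s) := fun x => iterateFrobenius_def p s x
  have hwφ : w'.map φ = w' := by
    ext i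
    rw [coeff_map, hφx, hw', coeff_map, ← map_pow, hfix]
  have hroot : ∀ i : ℕ, w'.eval (η ^ ((p ^ s) ^ i)) = 0 := by
    intro i
    induction i with
    | zero => rw [pow_zero, pow_one]; exact hη0
    | succ i ih =>
      have h1 : φ (w'.eval (η ^ ((p ^ s) ^ i))) = (w'.map φ).eval (φ (η ^ ((p ^ s) ^ i))) := by
        exact (by rw [eval_map, eval₂_at_apply] : (w'.map φ).eval (φ (η ^ ((p ^ s) ^ i))) = _).symm
      rw [ih, map_zero, hwφ, hφx, ← pow_mul, ← pow_succ] at h1
      exact h1.symm
  have hcard : w'.roots.toFinset.card < (range (n + 1)).card := by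
    rw [card_range]
    have h1 := Multiset.toFinset_card_le w'.roots
    have h2 := card_roots' w'
    omega
  obtain ⟨i, hi, j, hj, hij, he⟩ := Finset.exists_ne_map_eq_of_card_lt_of_maps_to hcard
    (f := fun i => η ^ ((p ^ s) ^ i)) (by
      intro i _
      rw [mem_coe, Multiset.mem_toFinset, mem_roots hw'm.ne_zero]
      exact hroot i)
  have hinj : ∀ i : ℕ, Function.Injective fun x : AlgebraicClosure k => x ^ ((p ^ s) ^ i) := by
    intro i x y hxy
    have : (fun x : AlgebraicClosure k => x ^ ((p ^ s) ^ i)) = fun x => x ^ p ^ (s * i) := by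
      funext x; rw [← pow_mul p]
    rw [this] at hxy
    have h2 := (iterateFrobenius (AlgebraicClosure k) p (s * i)).injective
    apply h2
    rw [iterateFrobenius_def, iterateFrobenius_def]
    exact hxy
  have hper : ∃ t, 1 ≤ t ∧ t ≤ n ∧ η ^ ((p ^ s) ^ t) = η := by
    have hgen : ∀ i j : ℕ, i < j → j ≤ n → η ^ ((p ^ s) ^ i) = η ^ ((p ^ s) ^ j) →
        ∃ t, 1 ≤ t ∧ t ≤ n ∧ η ^ ((p ^ s) ^ t) = η := by
      intro i j hij hj he
      refine ⟨j - i, by omega, by omega, ?_⟩
      apply hinj i
      show (η ^ ((p ^ s) ^ (j - i))) ^ ((p ^ s) ^ i) = η ^ ((p ^ s) ^ i)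
      rw [← pow_mul, ← pow_add, he]
      congr 2; omega
    rw [mem_range] at hi hj
    rcases lt_or_gt_of_ne hij with h | h
    · exact hgen i j h (by omega) he
    · exact hgen j i h (by omega) he.symm
  obtain ⟨t, ht1, htn, ht⟩ := hper
  have hit : ∀ m : ℕ, η ^ ((p ^ s) ^ (t * m)) = η := by
    intro m
    induction m with
    | zero => rw [Nat.mul_zero, pow_zero, pow_one]
    | succ m ih =>
      rw [Nat.mul_succ, pow_add, pow_mul, ih, ht]
  have hηM : η ^ (p ^ M) = η := by
    obtain ⟨m, hm⟩ := Nat.dvd_factorial ht1 htn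
    have := hit m
    rw [← hm, ← pow_mul] at this
    exact this
  -- the field with `p ^ M` elements contains all roots
  have : Fintype (GaloisField p M) := Fintype.ofFinite _
  have hc : Fintype.card (GaloisField p M) = p ^ M := by
    rw [← Nat.card_eq_fintype_card, GaloisField.card p M hM0]
  set ψ' : GaloisField p M →+* AlgebraicClosure k := (algebraMap k (AlgebraicClosure k)).comp ψ with hψ'
  have hp1 : 1 < p ^ M := Nat.one_lt_pow hM0 hp.out.one_lt
  have hne : (X ^ (p ^ M) - X : (AlgebraicClosure k)[X]) ≠ 0 :=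
    FiniteField.X_pow_card_sub_X_ne_zero (AlgebraicClosure k) hp1
  set S : Finset (AlgebraicClosure k) := univ.image ψ' with hS
  have hScard : S.card = p ^ M := by
    rw [hS, card_image_of_injective _ ψ'.injective, card_univ, hc]
  have hsub : S ⊆ (X ^ (p ^ M) - X : (AlgebraicClosure k)[X]).roots.toFinset := by
    intro x hx
    rw [hS, mem_image] at hx
    obtain ⟨z, _, rfl⟩ := hx
    rw [Multiset.mem_toFinset, mem_roots hne, IsRoot.def, eval_sub, eval_pow, eval_X, ← map_pow]
    have : z ^ (p ^ M) = z := by rw [← hc]; exact FiniteField.pow_card z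
    rw [this, sub_self]
  have hSeq : S = (X ^ (p ^ M) - X : (AlgebraicClosure k)[X]).roots.toFinset := by
    apply eq_of_subset_of_card_le hsub
    rw [hScard]
    refine (Multiset.toFinset_card_le _).trans ((card_roots' _).trans ?_)
    rw [FiniteField.X_pow_card_sub_X_natDegree_eq _ hp1]
  have hηS : η ∈ S := by
    rw [hSeq, Multiset.mem_toFinset, mem_roots hne, IsRoot.def, eval_sub, eval_pow, eval_X, hηM, sub_self]
  rw [hS, mem_image] at hηS
  obtain ⟨z, _, hz⟩ := hηS
  refine ⟨ψ z, ?_⟩
  apply (algebraMap k (AlgebraicClosure k)).injective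
  rw [map_zero, ← hη0, hw', eval_map_algebraMap, ← hz, hψ', RingHom.comp_apply, aeval_algebraMap_apply, aeval_def,
    eval₂_eq_eval_map, Algebra.algebraMap_self, Polynomial.map_id]

/-- the universal form -/
theorem exists_form {F : Type*} [Field F] {p : ℕ} [hp : Fact p.Prime] [CharP F p] {s n : ℕ} (hs : 1 ≤ s) (hn : 2 ≤ n)
    (fr : F →+* F) (hfr : ∀ x, fr x = x ^ (p ^ s)) :
    ∃ f : F[X], f.Monic ∧ 1 ≤ f.natDegree ∧ ∀ y : F[X], y.Monic → y.natDegree = n → Xs fr y ⊆ XX f := by
  classical
  set M := s * n.factorial with hM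
  let _ : Algebra (ZMod p) F := ZMod.algebra F p
  set pb := Field.powerBasisOfFiniteOfSeparable (ZMod p) (GaloisField p M) with hpb
  set f0 := minpoly (ZMod p) pb.gen with hf0
  have hint : IsIntegral (ZMod p) pb.gen := Algebra.IsIntegral.isIntegral _
  have hf0m : f0.Monic := minpoly.monic hint
  refine ⟨f0.map (algebraMap (ZMod p) F), hf0m.map _, ?_, ?_⟩
  · rw [natDegree_map]
    exact minpoly.natDegree_pos hint
  intro y hy hyn O hO
  obtain ⟨hy1, hy2, hM'⟩ := hO
  -- the prime field is contained in `O`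
  have hpO : ∀ c : ZMod p, algebraMap (ZMod p) F c ∈ O := by
    intro c
    have : algebraMap (ZMod p) F c = ((c.val : ℕ) : F) := by
      conv_lhs => rw [← ZMod.natCast_zmod_val c]
      rw [map_natCast]
    rw [this]
    exact natCast_mem O _
  have hfle : gn O (f0.map (algebraMap (ZMod p) F)) ≤ 1 := by
    rw [gn_le_iff]
    intro k
    rw [coeff_map, ValuationSubring.valuation_le_one_iff]
    exact hpO _
  refine ⟨hfle, fun a ha => ?_⟩
  have haO : a ∈ O := (O.valuation_le_one_iff a).1 ha
  have hfaO : (f0.map (algebraMap (ZMod p) F)).eval a ∈ O := by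
    rw [eval_eq_sum_range]
    refine O.sum_mem fun k _ => O.mul_mem _ _ ?_ (O.pow_mem haO k)
    rw [coeff_map]; exact hpO _
  by_contra hne
  have hlt : O.valuation ((f0.map (algebraMap (ZMod p) F)).eval a) < 1 :=
    lt_of_le_of_ne ((O.valuation_le_one_iff _).2 hfaO) hne
  -- the residue field
  have hpz : ((p : ℕ) : O) = 0 := by
    apply Subtype.ext
    have h1 : (((p : ℕ) : O) : F) = (p : F) := by push_cast; rfl
    rw [h1, CharP.cast_eq_zero]; rfl
  have hchO : CharP O p := (CharP.charP_iff_prime_eq_zero hp.out).2 hpz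
  set k := IsLocalRing.ResidueField O with hk
  set π := IsLocalRing.residue O with hπ
  have hchk : CharP k p := by
    have h0 : (p : k) = 0 := by
      rw [← map_natCast π, hpz, map_zero]
    exact (CharP.charP_iff_prime_eq_zero hp.out).2 h0
  let _ : Algebra (ZMod p) k := ZMod.algebra k p
  set g : ZMod p →+* O := ZMod.castHom (dvd_refl p) O with hg
  have hgF : ∀ c, (g c : F) = algebraMap (ZMod p) F c := by
    intro c
    have : (O.subtype.comp g) = algebraMap (ZMod p) F := RingHom.ext_zmod _ _
    exact congrArg (fun φ : ZMod p →+* F => φ c) this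
  have hgk : π.comp g = algebraMap (ZMod p) k := RingHom.ext_zmod _ _
  have haev : (aeval (π ⟨a, haO⟩)) f0 = 0 := by
    rw [aeval_def, ← hgk, ← hom_eval₂, IsLocalRing.residue_eq_zero_iff, ValuationSubring.valuation_lt_one_iff]
    have : ((f0.eval₂ g ⟨a, haO⟩ : O) : F) = (f0.map (algebraMap (ZMod p) F)).eval a := by
      have h1 : O.subtype (f0.eval₂ g ⟨a, haO⟩) = f0.eval₂ (O.subtype.comp g) (O.subtype ⟨a, haO⟩) :=
        hom_eval₂ _ _ _ _
      have h2 : (O.subtype.comp g) = algebraMap (ZMod p) F := RingHom.ext_zmod _ _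
      rw [h2] at h1
      rw [eval_map]; exact h1
    rw [this]; exact hlt
  set ψ := pb.lift (π ⟨a, haO⟩) haev with hψ
  -- `y` has a root modulo the maximal ideal
  have hylift : y ∈ lifts O.subtype := by
    rw [lifts_iff_coeff_lifts]
    intro i
    exact ⟨⟨y.coeff i, (O.valuation_le_one_iff _).1 ((coeff_le_gn O y i).trans hy1)⟩, rfl⟩
  obtain ⟨Y, hY, hYd, hYm⟩ := lifts_and_natDegree_eq_and_monic hylift hy
  have hYc : ∀ i, ((Y.coeff i : O) : F) = y.coeff i := by
    intro i
    rw [← hY, coeff_map]; rfl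
  have hw : (Y.map π).Monic := hYm.map _
  have hwn : (Y.map π).natDegree = n := by rw [hYm.natDegree_map, hYd, hyn]
  obtain ⟨η, hη⟩ := exists_root_of_emb hs (by omega : 1 ≤ n) ψ.toRingHom hw hwn (by
    intro i
    rw [coeff_map, ← map_pow, ← sub_eq_zero, ← map_sub, IsLocalRing.residue_eq_zero_iff,
      ValuationSubring.valuation_lt_one_iff]
    have e : ((Y.coeff i ^ (p ^ s) - Y.coeff i : O) : F) = -(y - y.map fr).coeff i := by
      rw [coeff_sub, coeff_map, hfr, ← hYc]
      push_cast
      ring
    rw [e, Valuation.map_neg]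
    exact (coeff_le_gn O _ i).trans_lt hy2)
  obtain ⟨e, rfl⟩ := IsLocalRing.residue_surjective η
  have he : O.valuation (y.eval (e : F)) < 1 := by
    have h1 : π (Y.eval e) = 0 := by
      rw [← hη, eval_map, eval₂_at_apply]
    rw [IsLocalRing.residue_eq_zero_iff, ValuationSubring.valuation_lt_one_iff] at h1
    have h2 : ((Y.eval e : O) : F) = y.eval (e : F) := by
      have : O.subtype (Y.eval e) = (Y.map O.subtype).eval (O.subtype e) := by
        rw [eval_map, eval₂_at_apply]
      rw [hY] at this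
      exact this
    rwa [h2] at h1
  have h3 := MulAt.no_root hy hy1 (by omega) hM' ((O.valuation_le_one_iff _).2 e.2)
  rw [h3] at he
  exact lt_irrefl _ he

end Wor51
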