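import Pool.Agent.LibWor51.Cls

/-!
The localised relation (GE), vanishing at the own direction (Z), the comparison (G) with a finer neighbour.
-/

namespace Wor51

open Polynomial

variable {F : Type*} [Field F] {A : Type*} [AddCommGroup A]

/-- the system `c_y = b(·, y)` -/
structure BSys (σ : F →+* F) (Q n : ℕ) (b : F[X] → F[X] → A) : Prop where
  cd : ∀ y : F[X], y.Monic → y.natDegree = n → (Xs σ y).Nonempty → CD σ Q n y (fun g => b g y)
  rel : ∀ x y : F[X], x.Monic → x.natDegree = n → y.Monic → y.natDegree = n → (Xs σ x).Nonempty → (Xs σ y).Nonempty →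
    ∀ i, tw σ i x ≠ y → x ≠ y →
      b (tw σ i x - y) y - Q ^ i • b (tw σ i x - y) x = Q ^ i • (b (x - y) y - b (x - y) x)

/-- `A` is torsion free -/
def TF (A : Type*) [AddCommGroup A] : Prop := ∀ (m : ℕ) (a : A), m ≠ 0 → m • a = 0 → a = 0

theorem isV_sub {n : ℕ} {y z : F[X]} (hy : y.Monic) (hyn : y.natDegree = n) (hz : z.Monic) (hzn : z.natDegree = n)
    (hne : y - z ≠ 0) : IsV n (y - z) := by
  refine ⟨hne, ?_⟩
  have d : y.degree = z.degree := by
    rw [degree_eq_natDegree hy.ne_zero, degree_eq_natDegree hz.ne_zero, hyn, hzn]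
  have := degree_sub_lt_left d hy.ne_zero (by rw [hy.leadingCoeff, hz.leadingCoeff])
  rwa [degree_eq_natDegree hy.ne_zero, hyn] at this

theorem isV_tw {n : ℕ} {σ : F →+* F} {h : F[X]} (hh : IsV n h) (i : ℕ) : IsV n (tw σ i h) :=
  ⟨tw_ne_zero hh.1 i, by rw [degree_tw]; exact hh.2⟩

variable {σ : F →+* F} {Q n : ℕ} {P : Set (ValuationSubring F)}

theorem cd_tw {y : F[X]} {c : F[X] → A} (hc : CD σ Q n y c) {h : F[X]} (hh : IsV n h) (i : ℕ) :
    c (tw σ i h) = Q ^ i • c h := by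
  induction i with
  | zero => rw [tw_zero, pow_zero, one_smul]
  | succ i ih => rw [tw_succ, hc.frob _ (isV_tw hh i), ih, smul_smul, pow_succ, mul_comm]

theorem loc_tw {y : F[X]} {c : F[X] → A} (L : Loc σ Q n P y c) (hσ : ∀ x, σ x = x ^ Q) (hQ : Q ≠ 0) {h : F[X]}
    (hh : IsV n h) (i : ℕ) : loc n P (Xs σ y) c (tw σ i h) = Q ^ i • loc n P (Xs σ y) c h := by
  induction i with
  | zero => rw [tw_zero, pow_zero, one_smul]
  | succ i ih => rw [tw_succ, L.frob hσ hQ (isV_tw hh i), ih, smul_smul, pow_succ, mul_comm]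

/-- (GE) -/
theorem ge_rel (hσ : ∀ x, σ x = x ^ Q) (hQ : 1 ≤ Q) {b : F[X] → F[X] → A} (S : BSys σ Q n b) (hP : P.Nonempty)
    {y z : F[X]} (Ly : Loc σ Q n P y (fun g => b g y)) (Lz : Loc σ Q n P z (fun g => b g z)) (hsep : Sep σ P y z)
    (i : ℕ) (hu : tw σ i y - z ≠ 0) (hv : y - z ≠ 0) :
    loc n P (Xs σ z) (fun g => b g z) (tw σ i y - z) - Q ^ i • loc n P (Xs σ z) (fun g => b g z) (y - z) =
      Q ^ i • (loc n P (Xs σ y) (fun g => b g y) (tw σ i y - z) - loc n P (Xs σ y) (fun g => b g y) (y - z)) := by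
  have hPy : (Xs σ y).Nonempty := hP.mono Ly.sub
  have hPz : (Xs σ z).Nonempty := hP.mono Lz.sub
  have r := S.rel y z Ly.mon Ly.deg Lz.mon Lz.deg hPy hPz i (sub_ne_zero.1 hu) (sub_ne_zero.1 hv)
  have hvV : IsV n (y - z) := isV_sub Ly.mon Ly.deg Lz.mon Lz.deg hv
  have huV : IsV n (tw σ i y - z) :=
    isV_sub (monic_tw Ly.mon i) ((natDegree_tw i y).trans Ly.deg) Lz.mon Lz.deg hu
  have hQi : Q ^ i ≠ 0 := pow_ne_zero _ (by omega)
  -- differences on the places of `y`
  have dy := Ly.diff hP huV hvV (by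
    intro O hO hn
    have h1 : gn O (tw σ i y - z - (y - z)) < gn O (y - z) := by
      have e : tw σ i y - z - (y - z) = tw σ i y - y := by ring
      rw [e, gn_sub_comm]
      exact ((gn_sub_tw_le hσ hQ hO.2.1.le i).trans_lt hO.2.1).trans_le (hsep O (Or.inl hO) hn)
    exact (SameDir.of_sub_lt h1).symm)
  -- differences on the places of `z`
  have dz := Lz.diff hP huV (isV_tw (σ := σ) hvV i) (by
    intro O hO hn
    have h1 : gn O (tw σ i y - z - tw σ i (y - z)) < gn O (tw σ i (y - z)) := by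
      have e : tw σ i y - z - tw σ i (y - z) = -(z - tw σ i z) := by rw [tw_sub']; ring
      rw [e, gn_neg, gn_tw hσ]
      exact ((gn_sub_tw_le hσ hQ hO.2.1.le i).trans_lt hO.2.1).trans_le (one_le_pow₀ (hsep O (Or.inr hO) hn))
    exact (SameDir.of_sub_lt h1).symm)
  have t1 : b (tw σ i (y - z)) z = Q ^ i • b (y - z) z := cd_tw Lz.cd hvV i
  have t2 := loc_tw Lz hσ (by omega) hvV i
  rw [t2] at dz
  rw [t1] at dz
  have e1 : b (tw σ i y - z) z - Q ^ i • b (y - z) z = Q ^ i • (b (tw σ i y - z) y - b (y - z) y) := by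
    rw [smul_sub]
    rw [smul_sub] at r
    have r' : b (tw σ i y - z) z = Q ^ i • b (tw σ i y - z) y + (Q ^ i • b (y - z) z - Q ^ i • b (y - z) y) := by
      rw [← r]; abel
    rw [r']; abel
  rw [← dz, e1, dy]

theorem smul_cancel (hA : TF A) {m : ℕ} (hm : m ≠ 0) {a a' : A} (h : m • a = m • a') : a = a' := by
  have : m • (a - a') = 0 := by rw [smul_sub, h, sub_self]
  exact sub_eq_zero.1 (hA m _ hm this)

section finer

variable (hσ : ∀ x, σ x = x ^ Q) (hQ : 2 ≤ Q) (hA : TF A) {b : F[X] → F[X] → A} (S : BSys σ Q n b) (hP : P.Nonempty)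
  {y z h : F[X]} {k : ℕ} (Ly : Loc σ Q n P y (fun g => b g y)) (Lz : Loc σ Q n P z (fun g => b g z))

include hσ hQ hA S hP Ly Lz

/-- (Z) : the local part of `y` vanishes at its own direction, if there is a finer neighbour -/
theorem loc_self (N : Finer σ P y z h k) : loc n P (Xs σ y) (fun g => b g y) (y - y.map σ) = 0 := by
  obtain ⟨O, hO⟩ := id hP
  have hv : y - z ≠ 0 := (N.dir0 O hO).symm.ne_zero
  have hu : tw σ 1 y - z ≠ 0 := (N.dir1 O hO).symm.ne_zero
  have hω : y - y.map σ ≠ 0 := (N.dir0 O hO).ne_zero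
  have r := ge_rel hσ (by omega) S hP Ly Lz N.sep 1 hu hv
  have hyσ : (y.map σ).Monic := Ly.mon.map σ
  have hyσn : (y.map σ).natDegree = n := by rw [natDegree_map]; exact Ly.deg
  have hωV : IsV n (y - y.map σ) := isV_sub Ly.mon Ly.deg hyσ hyσn hω
  have hvV : IsV n (y - z) := isV_sub Ly.mon Ly.deg Lz.mon Lz.deg hv
  have huV : IsV n (tw σ 1 y - z) := isV_sub hyσ hyσn Lz.mon Lz.deg hu
  have hωσ : IsV n (tw σ 1 (y - y.map σ)) := isV_tw hωV 1
  have a1 := Ly.congr hωσ huV N.dir1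
  have a2 := Ly.congr hωV hvV N.dir0
  have a3 := Lz.congr hωσ huV N.dir1
  have a4 := Lz.congr hωV hvV N.dir0
  rw [← a1, ← a2, ← a3, ← a4, loc_tw Lz hσ (by omega) hωV, loc_tw Ly hσ (by omega) hωV, sub_self, pow_one] at r
  have h1 := hA Q _ (by omega) r.symm
  set t := loc n P (Xs σ y) (fun g => b g y) (y - y.map σ) with ht
  have h2 : (Q - 1) • t = 0 := by
    have : Q • t = (Q - 1) • t + t := by
      rw [← succ_nsmul]; congr 1; omega
    rw [this, add_sub_cancel_right] at h1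
    exact h1
  exact hA (Q - 1) _ (by omega) h2

/-- (G) : comparison with a finer neighbour -/
theorem loc_finer (N : Finer σ P y z h k) (hh : IsV n h)
    (hz : loc n P (Xs σ z) (fun g => b g z) h = 0) :
    loc n P (Xs σ y) (fun g => b g y) h = - loc n P (Xs σ z) (fun g => b g z) (y - y.map σ) := by
  have hs := loc_self hσ hQ hA S hP Ly Lz N
  obtain ⟨O, hO⟩ := id hP
  have hv : y - z ≠ 0 := (N.dir0 O hO).symm.ne_zero
  have hu : tw σ k y - z ≠ 0 := (N.dirk O hO).symm.ne_zero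
  have hω : y - y.map σ ≠ 0 := (N.dir0 O hO).ne_zero
  have r := ge_rel hσ (by omega) S hP Ly Lz N.sep k hu hv
  have hωV : IsV n (y - y.map σ) := isV_sub Ly.mon Ly.deg (Ly.mon.map σ) (by rw [natDegree_map]; exact Ly.deg) hω
  have hvV : IsV n (y - z) := isV_sub Ly.mon Ly.deg Lz.mon Lz.deg hv
  have huV : IsV n (tw σ k y - z) := isV_sub (monic_tw Ly.mon k) ((natDegree_tw k y).trans Ly.deg) Lz.mon Lz.deg hu
  have a1 := Ly.congr hh huV N.dirk
  have a2 := Ly.congr hωV hvV N.dir0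
  have a3 := Lz.congr hh huV N.dirk
  have a4 := Lz.congr hωV hvV N.dir0
  rw [← a1, ← a2, ← a3, ← a4, hs, hz, sub_zero, zero_sub, ← smul_neg] at r
  exact (smul_cancel hA (pow_ne_zero _ (by omega)) r).symm

end finer

end Wor51
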