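import Pool.Agent.LibWor51.GE

/-!
Gluing: the symbol `b'` on `F[T]/π` built from the neighbours of `π`.
-/

namespace Wor51

open Polynomial

variable {F : Type*} [Field F] {A : Type*} [AddCommGroup A]

section

variable {σ : F →+* F} {Q n : ℕ} {f₀ π : F[X]} {α : F} (B : Base σ Q n f₀ π α) (hA : TF A)
  {b : F[X] → F[X] → A} (S : BSys σ Q n b) (nb : NBStatement σ n π α) (st : STStatement σ n π α)

/-- local part of `b(·, y)` at `P` -/
noncomputable abbrev lp (σ : F →+* F) (n : ℕ) (π : F[X]) (b : F[X] → F[X] → A) (y h : F[X]) : A :=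
  loc n (Xs σ π) (Xs σ y) (fun g => b g y) h

include B S in
theorem InC.locb {y : F[X]} (hy : InC σ n π α y) : Loc σ Q n (Xs σ π) y (fun g => b g y) := by
  have hy' := hy
  obtain ⟨K, hK, γ, h⟩ := hy'
  exact hy.loc B (S.cd y h.mon h.deg (B.nonempty.mono h.sub))

include B in
theorem isV_one : IsV n (1 : F[X]) := ⟨one_ne_zero, by rw [degree_one]; exact_mod_cast B.npos⟩

include B in
theorem InC.omega_isV {y : F[X]} (hy : InC σ n π α y) : IsV n (y - y.map σ) := by
  obtain ⟨K, hK, γ, h⟩ := hy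
  refine isV_sub h.mon h.deg (h.mon.map σ) (by rw [natDegree_map]; exact h.deg) ?_
  obtain ⟨O, hO⟩ := B.nonempty
  intro h0
  have h1 := h.om O hO
  rw [h0, gn_zero] at h1
  exact pow_ne_zero K ((Valuation.ne_zero_iff O.valuation).2 B.alpha_ne) (le_antisymm h1 zero_le)

include B hA S nb in
/-- (Z) -/
theorem lp_self {y : F[X]} (hy : InC σ n π α y) : lp σ n π b y (y - y.map σ) = 0 := by
  obtain ⟨z, k, hz, _, N, _⟩ := nb y y 1 hy hy (isV_one B)
  exact loc_self B.frob B.two_le hA S B.nonempty (hy.locb B S) (hz.locb B S) N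

include B hA S nb in
theorem lp_dir {y g : F[X]} (hy : InC σ n π α y) (hg : IsV n g) (hd : ∀ O ∈ Xs σ π, SameDir O g (y - y.map σ)) :
    lp σ n π b y g = 0 := by
  rw [← lp_self B hA S nb hy]
  exact (hy.locb B S).congr hg (hy.omega_isV B) hd

include B hA S nb in
/-- the local part only depends on the direction of `y` -/
theorem lp_wd {y y' h : F[X]} (hy : InC σ n π α y) (hy' : InC σ n π α y') (hh : IsV n h)
    (hd : ∀ O ∈ Xs σ π, SameDir O (y - y.map σ) (y' - y'.map σ)) : lp σ n π b y h = lp σ n π b y' h := by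
  obtain ⟨z, k, hz, hzh, N, N'⟩ := nb y y' h hy hy' hh
  have Lz := hz.locb B S
  have hz0 : lp σ n π b z h = 0 := lp_dir B hA S nb hz hh hzh
  have e1 := loc_finer B.frob B.two_le hA S B.nonempty (hy.locb B S) Lz N hh hz0
  have e2 := loc_finer B.frob B.two_le hA S B.nonempty (hy'.locb B S) Lz N' hh hz0
  have e3 : lp σ n π b z (y - y.map σ) = lp σ n π b z (y' - y'.map σ) :=
    Lz.congr (hy.omega_isV B) (hy'.omega_isV B) hd
  show lp σ n π b y h = lp σ n π b y' h
  rw [show lp σ n π b y h = - lp σ n π b z (y - y.map σ) from e1,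
    show lp σ n π b y' h = - lp σ n π b z (y' - y'.map σ) from e2, e3]

include B hA S nb in
/-- antisymmetry -/
theorem lp_anti {y z g h : F[X]} (hy : InC σ n π α y) (hz : InC σ n π α z) (hg : IsV n g) (hh : IsV n h)
    (hyg : ∀ O ∈ Xs σ π, SameDir O g (y - y.map σ)) (hzh : ∀ O ∈ Xs σ π, SameDir O h (z - z.map σ)) :
    lp σ n π b y h = - lp σ n π b z g := by
  obtain ⟨w, k, hw, hwh, N, _⟩ := nb y y h hy hy hh
  have Lw := hw.locb B S
  have hw0 : lp σ n π b w h = 0 := lp_dir B hA S nb hw hh hwh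
  have e1 : lp σ n π b y h = - lp σ n π b w (y - y.map σ) :=
    loc_finer B.frob B.two_le hA S B.nonempty (hy.locb B S) Lw N hh hw0
  have e2 : lp σ n π b w g = lp σ n π b w (y - y.map σ) := Lw.congr hg (hy.omega_isV B) hyg
  have e3 : lp σ n π b w g = lp σ n π b z g :=
    lp_wd B hA S nb hw hz hg fun O hO => (hwh O hO).symm.trans (hzh O hO)
  rw [e1, ← e2, e3]

include B nb in
theorem exists_dir {g : F[X]} (hg : IsV n g) : ∃ y, InC σ n π α y ∧ ∀ O ∈ Xs σ π, SameDir O g (y - y.map σ) := by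
  obtain ⟨z, k, hz, hzh, _⟩ := nb π π g (InC.self B) (InC.self B) hg
  exact ⟨z, hz, hzh⟩

/-- the glued symbol -/
noncomputable def glue (σ : F →+* F) (n : ℕ) (π : F[X]) (α : F) (b : F[X] → F[X] → A) (h g : F[X]) : A :=
  open Classical in
  if e : ∃ y, InC σ n π α y ∧ ∀ O ∈ Xs σ π, SameDir O g (y - y.map σ) then lp σ n π b e.choose h else 0

include B hA S nb in
theorem glue_eq {g h y : F[X]} (hh : IsV n h) (hy : InC σ n π α y)
    (hyg : ∀ O ∈ Xs σ π, SameDir O g (y - y.map σ)) : glue σ n π α b h g = lp σ n π b y h := by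
  have e : ∃ y, InC σ n π α y ∧ ∀ O ∈ Xs σ π, SameDir O g (y - y.map σ) := ⟨y, hy, hyg⟩
  rw [glue, dif_pos e]
  exact lp_wd B hA S nb e.choose_spec.1 hy hh fun O hO => (e.choose_spec.2 O hO).symm.trans (hyg O hO)

theorem near_lt (B : Base σ Q n f₀ π α) {y : F[X]} (hy : InC σ n π α y) {O : ValuationSubring F} (hO : O ∈ Xs σ π) :
    gn O (π - y) < 1 := by
  obtain ⟨K, hK, γ, h⟩ := hy
  have hα : O.valuation α < 1 := by
    rw [B.content O (B.world π B.mon B.deg hO)]
    exact hO.2.1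
  rw [gn_sub_comm]
  exact (pow_lt_one_iff (by omega : K ≠ 0)).1 ((h.near O hO).trans_lt hα)

include B hA S nb st in
theorem glue_qsym : Pool.Agent.LibG64.QSym σ Q π (glue σ n π α b) := by
  have hW : ∀ g : F[X], g ∈ Pool.Agent.LibG64.W F π.natDegree → IsV n g := by
    intro g hg
    rw [B.deg] at hg
    exact hg
  refine ⟨?_, ?_, ?_, ?_, ?_⟩
  · intro f hf g hg h hh
    have hf := hW f hf
    have hg := hW g hg
    have hh := hW h hh
    obtain ⟨y, hy, hyh⟩ := exists_dir B nb hh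
    obtain ⟨O₀, hO₀⟩ := id B.nonempty
    have L := hy.locb B S
    have hm : IsV n ((f * g) %ₘ π) := isV_mul B.mon B.deg hO₀ hf hg
    have hm' : IsV n ((f * g) %ₘ y) := isV_mul L.mon L.deg (L.sub hO₀) hf hg
    rw [glue_eq B hA S nb hm hy hyh, glue_eq B hA S nb hf hy hyh, glue_eq B hA S nb hg hy hyh]
    have dπ : π.degree = n := by rw [degree_eq_natDegree B.mon.ne_zero, B.deg]
    have e1 : lp σ n π b y ((f * g) %ₘ π) = lp σ n π b y ((f * g) %ₘ y) := by
      refine L.congr hm hm' fun O hO => ?_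
      exact MulAt.sameDir B.mon L.mon (by rw [dπ, L.degree]) hO.1 (near_lt B hy hO) hO.2.2 hf.1 hg.1
        (by rw [dπ]; exact hf.2) (by rw [dπ]; exact hg.2)
    rw [e1]
    exact L.mul B.nonempty hf hg
  · intro f hf g hg
    have hf := hW f hf
    have hg := hW g hg
    obtain ⟨y, hy, hyg⟩ := exists_dir B nb hg
    obtain ⟨z, hz, hzf⟩ := exists_dir B nb hf
    rw [glue_eq B hA S nb hf hy hyg, glue_eq B hA S nb hg hz hzf]
    exact lp_anti B hA S nb hy hz hg hf hyg hzf
  · intro f hf g hg hfg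
    have hf := hW f hf
    have hg := hW g hg
    have hs : IsV n (g + f) := by
      refine ⟨by rwa [add_comm], (degree_add_le _ _).trans_lt (max_lt hg.2 hf.2)⟩
    obtain ⟨y, z, k, hy, hz, hsep, hyg, hzs, hv, hu⟩ := st g f hg hf hs
    have Ly := hy.locb B S
    have Lz := hz.locb B S
    obtain ⟨O, hO⟩ := id B.nonempty
    have hv0 : y - z ≠ 0 := (hv O hO).symm.ne_zero
    have hu0 : tw σ k y - z ≠ 0 := (hu O hO).symm.ne_zero
    have hQ := B.two_le
    have r := ge_rel B.frob (by omega) S B.nonempty Ly Lz hsep k hu0 hv0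
    have hvV : IsV n (y - z) := isV_sub Ly.mon Ly.deg Lz.mon Lz.deg hv0
    have huV : IsV n (tw σ k y - z) := isV_sub (monic_tw Ly.mon k) ((natDegree_tw k y).trans Ly.deg) Lz.mon Lz.deg hu0
    have a1 := Ly.congr hs huV hu
    have a2 := Ly.congr hf hvV hv
    have a3 := Lz.congr hs huV hu
    have a4 := Lz.congr hf hvV hv
    have a5 : loc n (Xs σ π) (Xs σ z) (fun g => b g z) (g + f) = 0 := lp_dir B hA S nb hz hs hzs
    rw [← a1, ← a2, ← a3, ← a4, a5, zero_sub, ← smul_neg] at r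
    have r' := smul_cancel hA (pow_ne_zero _ (by omega)) r
    have hzs' : ∀ O ∈ Xs σ π, SameDir O (f + g) (z - z.map σ) := by
      intro O hO; rw [add_comm]; exact hzs O hO
    have hs' : IsV n (f + g) := by rw [add_comm]; exact hs
    rw [glue_eq B hA S nb hf hy hyg, glue_eq B hA S nb hf hz hzs', glue_eq B hA S nb hs' hy hyg]
    show lp σ n π b y f = lp σ n π b z f + lp σ n π b y (f + g)
    rw [add_comm f g]
    have r'' : -(lp σ n π b z f) = lp σ n π b y (g + f) - lp σ n π b y f := r'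
    have : lp σ n π b z f = -(lp σ n π b y (g + f) - lp σ n π b y f) := by rw [← r'', neg_neg]
    rw [this]; abel
  · intro a ha g hg
    have hg := hW g hg
    obtain ⟨y, hy, hyg⟩ := exists_dir B nb hg
    have hC : IsV n (C a) := by
      refine ⟨by rwa [Ne, C_eq_zero], degree_C_le.trans_lt ?_⟩
      exact_mod_cast B.npos
    rw [glue_eq B hA S nb hC hy hyg]
    refine (hy.locb B S).eq_zero hC fun O hO => ?_
    have := SameDir.C_mul (O := O) ha (one_ne_zero (α := F[X]))
    rwa [mul_one] at this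
  · intro f hf g hg
    have hf := hW f hf
    have hg := hW g hg
    obtain ⟨y, hy, hyg⟩ := exists_dir B nb hg
    have hfσ : IsV n (f.map σ) := isV_tw hf 1
    rw [glue_eq B hA S nb hfσ hy hyg, glue_eq B hA S nb hf hy hyg]
    have hQ := B.two_le
    exact (hy.locb B S).frob B.frob (by omega) hf

include B hA S nb st in
/-- if all symbols on `F[T]/π` vanish then `c_π` vanishes -/
theorem main_of_statements (hP : ∀ b' : F[X] → F[X] → A, Pool.Agent.LibG64.QSym σ Q π b' →
    ∀ f ∈ Pool.Agent.LibG64.W F n, ∀ g ∈ Pool.Agent.LibG64.W F n, b' f g = 0) {g : F[X]} (hg : IsV n g) :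
    b g π = 0 := by
  have hπ := InC.self B
  have L := hπ.locb B S
  have hω := hπ.omega_isV B
  have h1 := hP _ (glue_qsym B hA S nb st) g hg _ hω
  rw [glue_eq B hA S nb hg hπ fun O _ => SameDir.refl hω.1] at h1
  have r : Rep n (Xs σ π) (Xs σ π) g g := ⟨hg, fun O _ => SameDir.refl hg.1, fun O h h' => absurd h h'⟩
  have h2 := loc_eq L.cd hg.1 r
  rw [← h2]; exact h1

end

end Wor51
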