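import Mathlib

/-!
Gauss norms of polynomials at a valuation subring (multiplicative notation), directions, the condition
`MulAt` (irreducible modulo the maximal ideal), the sets `Xs`.
-/

namespace Wor51

open Polynomial

variable {F : Type*} [Field F]

/-- Gauss norm of `g` at `O`. -/
noncomputable def gn (O : ValuationSubring F) (g : F[X]) : O.ValueGroup :=
  g.support.sup fun k => O.valuation (g.coeff k)

variable {O : ValuationSubring F} {g h y z : F[X]}

theorem coeff_le_gn (O : ValuationSubring F) (g : F[X]) (k : ℕ) : O.valuation (g.coeff k) ≤ gn O g := by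
  by_cases hk : g.coeff k = 0
  · rw [hk, map_zero]; exact zero_le
  · exact Finset.le_sup (f := fun k => O.valuation (g.coeff k)) (mem_support_iff.2 hk)

theorem gn_le_iff {a : O.ValueGroup} : gn O g ≤ a ↔ ∀ k, O.valuation (g.coeff k) ≤ a := by
  constructor
  · intro h k
    exact (coeff_le_gn O g k).trans h
  · intro h
    exact Finset.sup_le fun k _ => h k

theorem exists_coeff_eq (O : ValuationSubring F) (g : F[X]) : ∃ k, O.valuation (g.coeff k) = gn O g := by
  by_cases hg : g = 0
  · refine ⟨0, ?_⟩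
    subst hg
    rw [coeff_zero, map_zero, gn, support_zero, Finset.sup_empty]
    exact bot_eq_zero.symm
  · have hne : g.support.Nonempty := by
      rw [Polynomial.nonempty_support_iff]; exact hg
    obtain ⟨k, _, hk⟩ := Finset.exists_mem_eq_sup g.support hne (fun k => O.valuation (g.coeff k))
    exact ⟨k, hk.symm⟩

theorem gn_lt_iff {a : O.ValueGroup} : gn O g < a ↔ ∀ k, O.valuation (g.coeff k) < a := by
  constructor
  · intro h k
    exact (coeff_le_gn O g k).trans_lt h
  · intro h
    obtain ⟨k, hk⟩ := exists_coeff_eq O g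
    rw [← hk]; exact h k

@[simp] theorem gn_zero (O : ValuationSubring F) : gn O (0 : F[X]) = 0 := by
  obtain ⟨k, hk⟩ := exists_coeff_eq O (0 : F[X])
  rw [← hk, coeff_zero, map_zero]

theorem gn_eq_zero : gn O g = 0 ↔ g = 0 := by
  constructor
  · intro h
    ext k
    have h1 := coeff_le_gn O g k
    rw [h] at h1
    have h2 : O.valuation (g.coeff k) = 0 := le_antisymm h1 zero_le
    rw [coeff_zero]
    exact (Valuation.zero_iff _).1 h2
  · intro h; subst h; exact gn_zero O

theorem gn_ne_zero (hg : g ≠ 0) : gn O g ≠ 0 := fun h => hg (gn_eq_zero.1 h)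

theorem gn_pos (hg : g ≠ 0) : 0 < gn O g := zero_lt_iff.2 (gn_ne_zero hg)

theorem gn_add_le {a : O.ValueGroup} (hg : gn O g ≤ a) (hh : gn O h ≤ a) : gn O (g + h) ≤ a := by
  rw [gn_le_iff] at *
  intro k
  rw [coeff_add]
  exact Valuation.map_add_le _ (hg k) (hh k)

theorem gn_add_lt {a : O.ValueGroup} (hg : gn O g < a) (hh : gn O h < a) : gn O (g + h) < a := by
  rw [gn_lt_iff] at *
  intro k
  rw [coeff_add]
  exact Valuation.map_add_lt _ (hg k) (hh k)

@[simp] theorem gn_neg (O : ValuationSubring F) (g : F[X]) : gn O (-g) = gn O g := by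
  apply le_antisymm
  · rw [gn_le_iff]; intro k; rw [coeff_neg, Valuation.map_neg]; exact coeff_le_gn O g k
  · rw [gn_le_iff]; intro k
    have := coeff_le_gn O (-g) k
    rwa [coeff_neg, Valuation.map_neg] at this

theorem gn_sub_le {a : O.ValueGroup} (hg : gn O g ≤ a) (hh : gn O h ≤ a) : gn O (g - h) ≤ a := by
  rw [sub_eq_add_neg]
  exact gn_add_le hg (by rwa [gn_neg])

theorem gn_sub_lt {a : O.ValueGroup} (hg : gn O g < a) (hh : gn O h < a) : gn O (g - h) < a := by
  rw [sub_eq_add_neg]
  exact gn_add_lt hg (by rwa [gn_neg])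

theorem gn_sub_comm (O : ValuationSubring F) (g h : F[X]) : gn O (g - h) = gn O (h - g) := by
  rw [← gn_neg, neg_sub]

theorem gn_add_of_lt (hlt : gn O h < gn O g) : gn O (g + h) = gn O g := by
  apply le_antisymm (gn_add_le le_rfl hlt.le)
  by_contra hc
  rw [not_le] at hc
  have : gn O (g + h - h) < gn O g := gn_sub_lt hc hlt
  rw [add_sub_cancel_right] at this
  exact lt_irrefl _ this

theorem gn_sub_of_lt (hlt : gn O h < gn O g) : gn O (g - h) = gn O g := by
  rw [sub_eq_add_neg]
  exact gn_add_of_lt (by rwa [gn_neg])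

theorem gn_eq_of_sub_lt (hlt : gn O (g - h) < gn O g) : gn O h = gn O g := by
  have h1 : h = g - (g - h) := by ring
  rw [h1]
  exact gn_sub_of_lt hlt

@[simp] theorem gn_C_mul (O : ValuationSubring F) (a : F) (g : F[X]) :
    gn O (C a * g) = O.valuation a * gn O g := by
  apply le_antisymm
  · rw [gn_le_iff]; intro k
    rw [coeff_C_mul, map_mul]
    exact mul_le_mul_right (coeff_le_gn O g k) _
  · obtain ⟨k, hk⟩ := exists_coeff_eq O g
    rw [← hk, ← map_mul, ← coeff_C_mul]
    exact coeff_le_gn O _ k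

@[simp] theorem gn_C (O : ValuationSubring F) (a : F) : gn O (C a) = O.valuation a := by
  apply le_antisymm
  · rw [gn_le_iff]; intro k
    rw [coeff_C]
    split_ifs
    · exact le_rfl
    · rw [map_zero]; exact zero_le
  · have := coeff_le_gn O (C a) 0
    rwa [coeff_C_zero] at this

@[simp] theorem gn_one (O : ValuationSubring F) : gn O (1 : F[X]) = 1 := by
  rw [← C_1, gn_C, map_one]

theorem one_le_gn_of_monic (hy : y.Monic) : 1 ≤ gn O y := by
  have := coeff_le_gn O y y.natDegree
  rwa [hy.coeff_natDegree, map_one] at this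

theorem gn_X_pow_mul (O : ValuationSubring F) (g : F[X]) (j : ℕ) : gn O (X ^ j * g) = gn O g := by
  apply le_antisymm
  · rw [gn_le_iff]; intro k
    rw [coeff_X_pow_mul']
    split_ifs
    · exact coeff_le_gn O g _
    · rw [map_zero]; exact zero_le
  · rw [gn_le_iff]; intro k
    have := coeff_le_gn O (X ^ j * g) (k + j)
    rwa [coeff_X_pow_mul] at this

/-- Submultiplicativity. -/
theorem gn_mul_le (O : ValuationSubring F) (g h : F[X]) : gn O (g * h) ≤ gn O g * gn O h := by
  rw [gn_le_iff]; intro k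
  rw [coeff_mul]
  refine Valuation.map_sum_le _ fun i _ => ?_
  rw [map_mul]
  exact mul_le_mul' (coeff_le_gn O g _) (coeff_le_gn O h _)

/-! ### twists -/

theorem gn_map {fr : F →+* F} {Q : ℕ} (hfr : ∀ x, fr x = x ^ Q) (O : ValuationSubring F) (g : F[X]) :
    gn O (g.map fr) = gn O g ^ Q := by
  apply le_antisymm
  · rw [gn_le_iff]; intro k
    rw [coeff_map, hfr, map_pow]
    exact pow_le_pow_left' (coeff_le_gn O g k) Q
  · obtain ⟨k, hk⟩ := exists_coeff_eq O g
    rw [← hk, ← map_pow, ← hfr, ← coeff_map]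
    exact coeff_le_gn O _ k

/-! ### division with remainder by integral monic polynomials -/

theorem gn_modByMonic_le (hy : y.Monic) (hy1 : gn O y ≤ 1) (g : F[X]) : gn O (g %ₘ y) ≤ gn O g := by
  induction hn : g.natDegree using Nat.strong_induction_on generalizing g with
  | _ n ih =>
    by_cases hd : g.degree < y.degree
    · rw [(modByMonic_eq_self_iff hy).2 hd]
    · rw [not_lt] at hd
      by_cases hg : g = 0
      · subst hg; rw [zero_modByMonic]
      by_cases hy0 : y.natDegree = 0
      · have : y = 1 := hy.natDegree_eq_zero.1 hy0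
        rw [this, modByMonic_one, gn_zero]; exact zero_le
      have hle : y.natDegree ≤ g.natDegree := natDegree_le_natDegree hd
      set q := C g.leadingCoeff * X ^ (g.natDegree - y.natDegree) with hq
      have hmod : g %ₘ y = (g - y * q) %ₘ y := by
        rw [sub_modByMonic, mul_comm y q]
        have : (q * y) %ₘ y = 0 := by
          rw [modByMonic_eq_zero_iff_dvd hy]; exact dvd_mul_left y q
        rw [this, sub_zero]
      have hgn : gn O (g - y * q) ≤ gn O g := by
        refine gn_sub_le le_rfl ?_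
        have e : y * q = C g.leadingCoeff * (X ^ (g.natDegree - y.natDegree) * y) := by rw [hq]; ring
        rw [e, gn_C_mul, gn_X_pow_mul]
        calc O.valuation g.leadingCoeff * gn O y ≤ O.valuation g.leadingCoeff * 1 := mul_le_mul_right hy1 _
          _ = O.valuation g.leadingCoeff := mul_one _
          _ ≤ gn O g := coeff_le_gn O g _
      rw [hmod]
      by_cases h0 : g - y * q = 0
      · rw [h0, zero_modByMonic, gn_zero]; exact zero_le
      · have hlt : (g - y * q).natDegree < n := by
          rw [← hn]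
          exact natDegree_lt_natDegree h0 (div_wf_lemma ⟨hd, hg⟩ hy)
        exact (ih _ hlt _ rfl).trans hgn

/-! ### directions -/

/-- `g` and `g'` have the same direction at `O`. -/
def SameDir (O : ValuationSubring F) (g g' : F[X]) : Prop :=
  ∃ a : F, a ≠ 0 ∧ gn O (g' - C a * g) < gn O g'

theorem SameDir.refl (hg : g ≠ 0) : SameDir O g g := by
  refine ⟨1, one_ne_zero, ?_⟩
  rw [C_1, one_mul, sub_self, gn_zero]
  exact gn_pos hg

theorem SameDir.symm {g' : F[X]} (h : SameDir O g g') : SameDir O g' g := by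
  obtain ⟨a, ha, h⟩ := h
  refine ⟨a⁻¹, inv_ne_zero ha, ?_⟩
  have e1 : g - C a⁻¹ * g' = C (-a⁻¹) * (g' - C a * g) := by
    rw [mul_sub, ← mul_assoc, ← C_mul]
    have : -a⁻¹ * a = -1 := by rw [neg_mul, inv_mul_cancel₀ ha]
    rw [this, C_neg, C_neg, C_1]; ring
  have e2 : gn O (C a * g) = gn O g' := gn_eq_of_sub_lt h
  rw [e1, gn_C_mul, Valuation.map_neg, map_inv₀]
  have ha' : O.valuation a ≠ 0 := (Valuation.ne_zero_iff _).2 ha
  rw [gn_C_mul] at e2
  have e3 : gn O g = (O.valuation a)⁻¹ * gn O g' := by rw [← e2, inv_mul_cancel_left₀ ha']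
  rw [e3]
  exact (mul_lt_mul_iff_right₀ (zero_lt_iff.2 (inv_ne_zero ha'))).2 h

theorem SameDir.trans {g' g'' : F[X]} (h : SameDir O g g') (h' : SameDir O g' g'') : SameDir O g g'' := by
  obtain ⟨a, ha, h⟩ := h
  obtain ⟨b, hb, h'⟩ := h'
  refine ⟨b * a, mul_ne_zero hb ha, ?_⟩
  have e : g'' - C (b * a) * g = (g'' - C b * g') + C b * (g' - C a * g) := by rw [C_mul]; ring
  have e2 : gn O (C b * g') = gn O g'' := gn_eq_of_sub_lt h'
  rw [e]
  refine gn_add_lt h' ?_
  rw [gn_C_mul] at e2 ⊢
  rw [← e2]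
  exact (mul_lt_mul_iff_right₀ (zero_lt_iff.2 ((Valuation.ne_zero_iff _).2 hb))).2 h

/-- scaling does not change the direction -/
theorem SameDir.C_mul {a : F} (ha : a ≠ 0) (hg : g ≠ 0) : SameDir O g (C a * g) := by
  refine ⟨a, ha, ?_⟩
  rw [sub_self, gn_zero]
  exact gn_pos (mul_ne_zero (by rwa [Ne, C_eq_zero]) hg)

/-- small perturbations do not change the direction -/
theorem SameDir.of_sub_lt {g' : F[X]} (h : gn O (g' - g) < gn O g) : SameDir O g g' := by
  have h1 : gn O g' = gn O g := by
    apply gn_eq_of_sub_lt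
    rwa [gn_sub_comm]
  refine ⟨1, one_ne_zero, ?_⟩
  rw [C_1, one_mul, h1]; exact h

theorem SameDir.ne_zero {g' : F[X]} (h : SameDir O g g') : g ≠ 0 := by
  rintro rfl
  obtain ⟨a, _, h⟩ := h
  rw [mul_zero, sub_zero] at h
  exact lt_irrefl _ h

theorem SameDir.map {g' : F[X]} {fr : F →+* F} {Q : ℕ} (hfr : ∀ x, fr x = x ^ Q) (hQ : Q ≠ 0)
    (h : SameDir O g g') : SameDir O (g.map fr) (g'.map fr) := by
  obtain ⟨a, ha, h⟩ := h
  refine ⟨fr a, by rw [hfr]; exact pow_ne_zero _ ha, ?_⟩
  have e : g'.map fr - C (fr a) * g.map fr = (g' - C a * g).map fr := by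
    rw [Polynomial.map_sub, Polynomial.map_mul, map_C]
  rw [e, gn_map hfr, gn_map hfr]
  exact pow_lt_pow_left₀ h zero_le hQ

end Wor51
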