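import Pool.Agent.LibWor51.Exists

/-!
The local part of a multiplicative function supported at the places of `y`.
-/

namespace Wor51

open Polynomial

variable {F : Type*} [Field F] {A : Type*} [AddCommGroup A]

/-- nonzero polynomials of degree `< n` -/
def IsV (n : ℕ) (g : F[X]) : Prop := g ≠ 0 ∧ g.degree < n

/-- `c` is multiplicative modulo `y`, `c (g^σ) = Q c g`, and only depends on the directions at the places of `y` -/
structure CD (σ : F →+* F) (Q n : ℕ) (y : F[X]) (c : F[X] → A) : Prop where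
  mul : ∀ f g, IsV n f → IsV n g → c ((f * g) %ₘ y) = c f + c g
  frob : ∀ f, IsV n f → c (f.map σ) = Q • c f
  supp : ∀ f g, IsV n f → IsV n g → (∀ O ∈ Xs σ y, SameDir O f g) → c f = c g

/-- `h'` represents `h` on `P` and `1` on the other places of `Y` -/
structure Rep (n : ℕ) (P Y : Set (ValuationSubring F)) (h h' : F[X]) : Prop where
  isV : IsV n h'
  on : ∀ O ∈ P, SameDir O h h'
  off : ∀ O ∈ Y, O ∉ P → SameDir O 1 h'

/-- the local part of `c` at `P` -/
noncomputable def loc (n : ℕ) (P Y : Set (ValuationSubring F)) (c : F[X] → A) (h : F[X]) : A :=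
  open Classical in if e : ∃ h', Rep n P Y h h' then c e.choose else 0

variable {σ : F →+* F} {Q n : ℕ} {y z : F[X]} {c : F[X] → A} {P : Set (ValuationSubring F)}

theorem Rep.same {Y : Set (ValuationSubring F)} {h h' k k' : F[X]} (a : Rep n P Y h h') (b : Rep n P Y k k')
    (hk : ∀ O ∈ P, SameDir O h k) : ∀ O ∈ Y, SameDir O h' k' := by
  intro O hO
  by_cases hP : O ∈ P
  · exact ((a.on O hP).symm.trans (hk O hP)).trans (b.on O hP)
  · exact (a.off O hO hP).symm.trans (b.off O hO hP)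

theorem loc_eq (hc : CD σ Q n y c) {h h' : F[X]} (hh : h ≠ 0) (a : Rep n P (Xs σ y) h h') :
    loc n P (Xs σ y) c h = c h' := by
  have e : ∃ h', Rep n P (Xs σ y) h h' := ⟨h', a⟩
  rw [loc, dif_pos e]
  exact hc.supp _ _ e.choose_spec.isV a.isV (e.choose_spec.same a fun O _ => SameDir.refl hh)

/-- a cut element -/
structure Gam (P Y : Set (ValuationSubring F)) (γ : F) : Prop where
  on : ∀ O ∈ P, O.valuation γ < 1
  off : ∀ O ∈ Y, O ∉ P → 1 < O.valuation γ

/-- representatives exist -/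
theorem exists_rep {f : F[X]} (hdiv : Div F) (hf : f.Monic) (hD : 1 ≤ f.natDegree) {Y : Set (ValuationSubring F)}
    (hPY : P ⊆ Y) (hY : Y ⊆ XX f) (hP : P.Nonempty) (hn : 1 ≤ n) {γ : F} (hγ : Gam P Y γ) {h : F[X]} (hh : IsV n h) :
    ∃ h', Rep n P Y h h' := by
  obtain ⟨t, ht0, ht⟩ := exists_content hdiv hf hD h
  have ht0 := ht0 hh.1
  have hnorm : ∀ O ∈ Y, gn O (C t⁻¹ * h) = 1 := by
    intro O hO
    rw [gn_C_mul, map_inv₀, ht O (hY hO)]
    exact inv_mul_cancel₀ (gn_ne_zero hh.1)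
  have hon : ∀ O ∈ P, SameDir O h (C t⁻¹ * h + C γ) := by
    intro O hO
    have h1 : SameDir O h (C t⁻¹ * h) := SameDir.C_mul (inv_ne_zero ht0) hh.1
    refine h1.trans (SameDir.of_sub_lt ?_)
    rw [add_sub_cancel_left, gn_C, hnorm O (hPY hO)]
    exact hγ.on O hO
  refine ⟨C t⁻¹ * h + C γ, ⟨?_, ?_⟩, hon, ?_⟩
  · obtain ⟨O, hO⟩ := hP
    exact (hon O hO).symm.ne_zero
  · refine (degree_add_le _ _).trans_lt (max_lt ?_ ?_)
    · rw [degree_C_mul (inv_ne_zero ht0)]; exact hh.2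
    · refine degree_C_le.trans_lt ?_
      exact_mod_cast hn
  · intro O hO hn'
    have hg := hγ.off O hO hn'
    have hγ0 : γ ≠ 0 := by
      rintro rfl
      rw [map_zero] at hg
      exact absurd hg (not_lt.2 zero_le)
    have h1 : SameDir O 1 (C γ * 1) := SameDir.C_mul hγ0 one_ne_zero
    refine h1.trans (SameDir.of_sub_lt ?_)
    rw [mul_one, add_sub_cancel_right, hnorm O hO, gn_C]
    exact hg

/-- everything needed for local parts -/
structure Loc (σ : F →+* F) (Q n : ℕ) (P : Set (ValuationSubring F)) (y : F[X]) (c : F[X] → A) : Prop where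
  npos : 1 ≤ n
  mon : y.Monic
  deg : y.natDegree = n
  sub : P ⊆ Xs σ y
  cd : CD σ Q n y c
  rep : ∀ h, IsV n h → ∃ h', Rep n P (Xs σ y) h h'

theorem Loc.degree (L : Loc σ Q n P y c) : y.degree = n := by
  rw [degree_eq_natDegree L.mon.ne_zero, L.deg]

/-- the product modulo `y` of two nonzero polynomials of degree `< n` is nonzero, if `y` has a place -/
theorem isV_mul (hy : y.Monic) (hyn : y.natDegree = n) {O : ValuationSubring F} (hO : O ∈ Xs σ y) {g h : F[X]}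
    (hg : IsV n g) (hh : IsV n h) : IsV n ((g * h) %ₘ y) := by
  have hd : y.degree = n := by rw [degree_eq_natDegree hy.ne_zero, hyn]
  refine ⟨?_, ?_⟩
  · intro h0
    have := hO.2.2 g h hg.1 hh.1 (by rw [hd]; exact hg.2) (by rw [hd]; exact hh.2)
    rw [h0, gn_zero] at this
    exact (mul_pos (gn_pos (O := O) hg.1) (gn_pos hh.1)).ne this
  · rw [← hd]; exact degree_modByMonic_lt _ hy

/-- directions multiply at the places of `y` -/
theorem sameDir_mul_mul (hy : y.Monic) (hyn : y.natDegree = n) {O : ValuationSubring F} (hO : O ∈ Xs σ y)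
    {g g' h h' : F[X]} (hg : IsV n g) (hg' : IsV n g') (hh : IsV n h) (hh' : IsV n h') (a : SameDir O g g')
    (b : SameDir O h h') : SameDir O ((g * h) %ₘ y) ((g' * h') %ₘ y) := by
  have hd : y.degree = n := by rw [degree_eq_natDegree hy.ne_zero, hyn]
  have h1 : SameDir O ((g * h) %ₘ y) ((g' * h) %ₘ y) :=
    MulAt.sameDir_mul hO.2.2 hh.1 (by rw [hd]; exact hg.2) (by rw [hd]; exact hg'.2) (by rw [hd]; exact hh.2) a
  have h2 : SameDir O ((h * g') %ₘ y) ((h' * g') %ₘ y) :=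
    MulAt.sameDir_mul hO.2.2 hg'.1 (by rw [hd]; exact hh.2) (by rw [hd]; exact hh'.2) (by rw [hd]; exact hg'.2) b
  rw [mul_comm h g', mul_comm h' g'] at h2
  exact h1.trans h2

/-- (L1) -/
theorem Loc.congr (L : Loc σ Q n P y c) {h k : F[X]} (hh : IsV n h) (hk : IsV n k)
    (hd : ∀ O ∈ P, SameDir O h k) : loc n P (Xs σ y) c h = loc n P (Xs σ y) c k := by
  obtain ⟨h', a⟩ := L.rep h hh
  obtain ⟨k', b⟩ := L.rep k hk
  rw [loc_eq L.cd hh.1 a, loc_eq L.cd hk.1 b]
  exact L.cd.supp _ _ a.isV b.isV (a.same b hd)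

/-- (L2) -/
theorem Loc.mul (L : Loc σ Q n P y c) (hP : P.Nonempty) {h k : F[X]} (hh : IsV n h) (hk : IsV n k) :
    loc n P (Xs σ y) c ((h * k) %ₘ y) = loc n P (Xs σ y) c h + loc n P (Xs σ y) c k := by
  obtain ⟨h', a⟩ := L.rep h hh
  obtain ⟨k', b⟩ := L.rep k hk
  obtain ⟨O₀, hO₀⟩ := hP
  have hm : IsV n ((h * k) %ₘ y) := isV_mul L.mon L.deg (L.sub hO₀) hh hk
  have r : Rep n P (Xs σ y) ((h * k) %ₘ y) ((h' * k') %ₘ y) := by
    refine ⟨isV_mul L.mon L.deg (L.sub hO₀) a.isV b.isV, fun O hO => ?_, fun O hO hn => ?_⟩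
    · exact sameDir_mul_mul L.mon L.deg (L.sub hO) hh a.isV hk b.isV (a.on O hO) (b.on O hO)
    · have h1V : IsV n (1 : F[X]) := ⟨one_ne_zero, by rw [degree_one]; exact_mod_cast L.npos⟩
      have h1 := sameDir_mul_mul L.mon L.deg hO h1V a.isV h1V b.isV (a.off O hO hn) (b.off O hO hn)
      rw [mul_one, (modByMonic_eq_self_iff L.mon).2 (by rw [L.degree]; exact h1V.2)] at h1
      exact h1
  rw [loc_eq L.cd hm.1 r, L.cd.mul _ _ a.isV b.isV, loc_eq L.cd hh.1 a, loc_eq L.cd hk.1 b]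

/-- (L3) -/
theorem Loc.frob (L : Loc σ Q n P y c) (hσ : ∀ x, σ x = x ^ Q) (hQ : Q ≠ 0) {h : F[X]} (hh : IsV n h) :
    loc n P (Xs σ y) c (h.map σ) = Q • loc n P (Xs σ y) c h := by
  obtain ⟨h', a⟩ := L.rep h hh
  have r : Rep n P (Xs σ y) (h.map σ) (h'.map σ) := by
    refine ⟨⟨(Polynomial.map_ne_zero_iff σ.injective).2 a.isV.1, by rw [degree_map]; exact a.isV.2⟩,
      fun O hO => (a.on O hO).map hσ hQ, fun O hO hn => ?_⟩
    have := (a.off O hO hn).map hσ hQ
    rwa [Polynomial.map_one] at this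
  rw [loc_eq L.cd ((Polynomial.map_ne_zero_iff σ.injective).2 hh.1) r, L.cd.frob _ a.isV, loc_eq L.cd hh.1 a]

/-- `c 1 = 0` -/
theorem Loc.one (L : Loc σ Q n P y c) : c 1 = 0 := by
  have h1V : IsV n (1 : F[X]) := ⟨one_ne_zero, by rw [degree_one]; exact_mod_cast L.npos⟩
  have := L.cd.mul 1 1 h1V h1V
  rw [mul_one, (modByMonic_eq_self_iff L.mon).2 (by rw [L.degree]; exact h1V.2)] at this
  exact left_eq_add.1 this

/-- (L4) -/
theorem Loc.eq_zero (L : Loc σ Q n P y c) {h : F[X]} (hh : IsV n h) (hd : ∀ O ∈ P, SameDir O 1 h) :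
    loc n P (Xs σ y) c h = 0 := by
  have h1V : IsV n (1 : F[X]) := ⟨one_ne_zero, by rw [degree_one]; exact_mod_cast L.npos⟩
  have r : Rep n P (Xs σ y) h 1 := ⟨h1V, fun O hO => (hd O hO).symm, fun O _ _ => SameDir.refl one_ne_zero⟩
  rw [loc_eq L.cd hh.1 r, L.one]

/-- (L5) differences -/
theorem Loc.diff (L : Loc σ Q n P y c) (hP : P.Nonempty) {f g : F[X]} (hf : IsV n f) (hg : IsV n g)
    (hd : ∀ O ∈ Xs σ y, O ∉ P → SameDir O f g) :
    c f - c g = loc n P (Xs σ y) c f - loc n P (Xs σ y) c g := by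
  obtain ⟨f', a⟩ := L.rep f hf
  obtain ⟨g', b⟩ := L.rep g hg
  obtain ⟨O₀, hO₀⟩ := hP
  have h1V : IsV n (1 : F[X]) := ⟨one_ne_zero, by rw [degree_one]; exact_mod_cast L.npos⟩
  have key : c ((f * g') %ₘ y) = c ((g * f') %ₘ y) := by
    refine L.cd.supp _ _ (isV_mul L.mon L.deg (L.sub hO₀) hf b.isV) (isV_mul L.mon L.deg (L.sub hO₀) hg a.isV) ?_
    intro O hO
    by_cases hOP : O ∈ P
    · have h1 := sameDir_mul_mul L.mon L.deg hO hf hf b.isV hg (SameDir.refl hf.1) (b.on O hOP).symm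
      have h2 := sameDir_mul_mul L.mon L.deg hO hg hg hf a.isV (SameDir.refl hg.1) (a.on O hOP)
      rw [mul_comm f g] at h1
      exact h1.trans h2
    · have h1 := sameDir_mul_mul L.mon L.deg hO hf hg b.isV h1V (hd O hO hOP) (b.off O hO hOP).symm
      have h2 := sameDir_mul_mul L.mon L.deg hO hg hg h1V a.isV (SameDir.refl hg.1) (a.off O hO hOP)
      exact h1.trans h2
  rw [L.cd.mul _ _ hf b.isV, L.cd.mul _ _ hg a.isV] at key
  rw [loc_eq L.cd hf.1 a, loc_eq L.cd hg.1 b]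
  rw [sub_eq_sub_iff_add_eq_add, key, add_comm]

end Wor51
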