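import Pool.Agent.LibWor51.Gn

/-!
`MulAt O y`: the Gauss norm is multiplicative modulo `y` (that is, `y` is irreducible modulo the maximal ideal).
The set `Xs fr y` of the valuation subrings where `y` is integral, `y ≡ y^fr` and `MulAt`.  Twists.
-/

namespace Wor51

open Polynomial

variable {F : Type*} [Field F] {O : ValuationSubring F} {y z : F[X]}

/-- division with remainder by an integral monic polynomial, with Gauss norm bounds -/
theorem exists_div (hy : y.Monic) (hy1 : gn O y ≤ 1) (g : F[X]) :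
    gn O (g /ₘ y) ≤ gn O g ∧ gn O (g %ₘ y) ≤ gn O g := by
  have key : ∀ n : ℕ, ∀ g : F[X], g.natDegree = n →
      ∃ q r : F[X], r + y * q = g ∧ r.degree < y.degree ∧ gn O q ≤ gn O g ∧ gn O r ≤ gn O g := by
    intro n
    induction n using Nat.strong_induction_on with
    | _ n ih =>
      intro g hn
      by_cases hd : g.degree < y.degree
      · exact ⟨0, g, by ring, hd, by rw [gn_zero]; exact zero_le, le_rfl⟩
      · rw [not_lt] at hd
        have hg : g ≠ 0 := by
          rintro rfl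
          rw [degree_zero, le_bot_iff, degree_eq_bot] at hd
          exact hy.ne_zero hd
        set q := C g.leadingCoeff * X ^ (g.natDegree - y.natDegree) with hq
        have hqn : gn O q ≤ gn O g := by
          have e : q = C g.leadingCoeff * (X ^ (g.natDegree - y.natDegree) * 1) := by rw [hq, mul_one]
          rw [e, gn_C_mul, gn_X_pow_mul, gn_one, mul_one]
          exact coeff_le_gn O g _
        have hgn : gn O (g - y * q) ≤ gn O g := by
          refine gn_sub_le le_rfl ?_
          have e : y * q = C g.leadingCoeff * (X ^ (g.natDegree - y.natDegree) * y) := by rw [hq]; ring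
          rw [e, gn_C_mul, gn_X_pow_mul]
          calc O.valuation g.leadingCoeff * gn O y ≤ O.valuation g.leadingCoeff * 1 := mul_le_mul_right hy1 _
            _ = O.valuation g.leadingCoeff := mul_one _
            _ ≤ gn O g := coeff_le_gn O g _
        by_cases h0 : g - y * q = 0
        · refine ⟨q, 0, ?_, ?_, hqn, by rw [gn_zero]; exact zero_le⟩
          · rw [zero_add]; exact (sub_eq_zero.1 h0).symm
          · rw [degree_zero, bot_lt_iff_ne_bot, Ne, degree_eq_bot]
            exact hy.ne_zero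
        · have hlt : (g - y * q).degree < g.degree := div_wf_lemma ⟨hd, hg⟩ hy
          have hlt' : (g - y * q).natDegree < n := by
            rw [← hn]
            exact natDegree_lt_natDegree h0 hlt
          obtain ⟨q', r', h1, h2, h3, h4⟩ := ih _ hlt' _ rfl
          refine ⟨q' + q, r', ?_, h2, gn_add_le (h3.trans hgn) hqn, h4.trans hgn⟩
          rw [mul_add, ← add_assoc, h1]; ring
  obtain ⟨q, r, h1, h2, h3, h4⟩ := key _ g rfl
  obtain ⟨e1, e2⟩ := div_modByMonic_unique q r hy ⟨h1, h2⟩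
  rw [e1, e2]; exact ⟨h3, h4⟩

/-- the Gauss norm is multiplicative modulo `y` -/
def MulAt (O : ValuationSubring F) (y : F[X]) : Prop :=
  ∀ g h : F[X], g ≠ 0 → h ≠ 0 → g.degree < y.degree → h.degree < y.degree →
    gn O ((g * h) %ₘ y) = gn O g * gn O h

/-- products modulo `y` and modulo a nearby `z` -/
theorem modByMonic_sub_lt (hy : y.Monic) (hz : z.Monic) (hyz : y.degree = z.degree) (hy1 : gn O y ≤ 1) (hz1 : gn O z ≤ 1)
    (hlt : gn O (y - z) < 1) {g h : F[X]} (hg : g ≠ 0) (hh : h ≠ 0) :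
    gn O ((g * h) %ₘ z - (g * h) %ₘ y) < gn O g * gn O h := by
  obtain ⟨b1, _⟩ := exists_div hy hy1 (g * h)
  have e : (g * h) %ₘ z = ((g * h) /ₘ y * (y - z)) %ₘ z + (g * h) %ₘ y := by
    have e1 : g * h = (g * h) /ₘ y * z + ((g * h) /ₘ y * (y - z) + (g * h) %ₘ y) := by
      have := modByMonic_add_div (g * h) y
      calc g * h = (g * h) %ₘ y + y * ((g * h) /ₘ y) := this.symm
        _ = _ := by ring
    have e2 : ((g * h) %ₘ y) %ₘ z = (g * h) %ₘ y := by
      rw [modByMonic_eq_self_iff hz, ← hyz]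
      exact degree_modByMonic_lt _ hy
    conv_lhs => rw [e1]
    rw [add_modByMonic, add_modByMonic, e2]
    have : ((g * h) /ₘ y * z) %ₘ z = 0 := by
      rw [modByMonic_eq_zero_iff_dvd hz]; exact dvd_mul_left z _
    rw [this, zero_add]
  rw [e, add_sub_cancel_right]
  have hpos : 0 < gn O g * gn O h := mul_pos (gn_pos hg) (gn_pos hh)
  calc gn O (((g * h) /ₘ y * (y - z)) %ₘ z) ≤ gn O ((g * h) /ₘ y * (y - z)) := (exists_div hz hz1 _).2
    _ ≤ gn O ((g * h) /ₘ y) * gn O (y - z) := gn_mul_le _ _ _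
    _ ≤ (gn O g * gn O h) * gn O (y - z) := mul_le_mul_left (b1.trans (gn_mul_le _ _ _)) _
    _ < (gn O g * gn O h) * 1 := (mul_lt_mul_iff_right₀ hpos).2 hlt
    _ = gn O g * gn O h := mul_one _

theorem gn_le_one_congr (hy1 : gn O y ≤ 1) (hlt : gn O (y - z) < 1) : gn O z ≤ 1 := by
  have : z = y - (y - z) := by ring
  rw [this]
  exact gn_sub_le hy1 hlt.le

/-- `MulAt` only depends on the residue of `y` -/
theorem MulAt.congr (hy : y.Monic) (hz : z.Monic) (hyz : y.degree = z.degree) (hy1 : gn O y ≤ 1)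
    (hlt : gn O (y - z) < 1) (hM : MulAt O y) : MulAt O z := by
  intro g h hg hh dg dh
  have hz1 := gn_le_one_congr hy1 hlt
  have h1 := modByMonic_sub_lt hy hz hyz hy1 hz1 hlt hg hh
  have h2 := hM g h hg hh (by rwa [hyz]) (by rwa [hyz])
  rw [← h2] at h1 ⊢
  apply gn_eq_of_sub_lt
  rwa [gn_sub_comm]

/-- products modulo `y` and `z` have the same direction -/
theorem MulAt.sameDir (hy : y.Monic) (hz : z.Monic) (hyz : y.degree = z.degree) (hy1 : gn O y ≤ 1)
    (hlt : gn O (y - z) < 1) (hM : MulAt O y) {g h : F[X]} (hg : g ≠ 0) (hh : h ≠ 0) (dg : g.degree < y.degree)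
    (dh : h.degree < y.degree) : SameDir O ((g * h) %ₘ y) ((g * h) %ₘ z) := by
  have hz1 := gn_le_one_congr hy1 hlt
  have h1 := modByMonic_sub_lt hy hz hyz hy1 hz1 hlt hg hh
  rw [← hM g h hg hh dg dh] at h1
  exact SameDir.of_sub_lt h1

/-- multiplying by `h` modulo `y` preserves equality of directions -/
theorem MulAt.sameDir_mul (hM : MulAt O y) {g g' h : F[X]} (hh : h ≠ 0) (dg : g.degree < y.degree)
    (dg' : g'.degree < y.degree) (dh : h.degree < y.degree) (hs : SameDir O g g') :
    SameDir O ((g * h) %ₘ y) ((g' * h) %ₘ y) := by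
  have hg := hs.ne_zero
  have hg' := hs.symm.ne_zero
  obtain ⟨a, ha, hs⟩ := hs
  refine ⟨a, ha, ?_⟩
  have e : (g' * h) %ₘ y - C a * ((g * h) %ₘ y) = ((g' - C a * g) * h) %ₘ y := by
    rw [sub_mul, sub_modByMonic, mul_assoc, ← smul_eq_C_mul, ← smul_eq_C_mul, smul_modByMonic]
  rw [e, hM g' h hg' hh dg' dh]
  by_cases h0 : g' - C a * g = 0
  · rw [h0, zero_mul, zero_modByMonic, gn_zero]
    exact mul_pos (gn_pos hg') (gn_pos hh)
  · have hd : (g' - C a * g).degree < y.degree := by
      refine (degree_sub_le _ _).trans_lt (max_lt dg' ?_)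
      rw [degree_C_mul ha]; exact dg
    rw [hM _ h h0 hh hd dh]
    exact (mul_lt_mul_iff_left₀ (gn_pos hh)).2 hs

/-- `MulAt` excludes roots modulo the maximal ideal -/
theorem MulAt.no_root (hy : y.Monic) (hy1 : gn O y ≤ 1) (hn : 2 ≤ y.natDegree) (hM : MulAt O y) {a : F}
    (ha : O.valuation a ≤ 1) : O.valuation (y.eval a) = 1 := by
  have hX : (X - C a : F[X]).Monic := monic_X_sub_C a
  have hdX : (X - C a : F[X]).degree ≤ y.degree := by
    rw [degree_X_sub_C, degree_eq_natDegree hy.ne_zero]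
    exact_mod_cast (by omega : 1 ≤ y.natDegree)
  set h := y /ₘ (X - C a) with hh
  have e1 : (X - C a) * h = y - C (y.eval a) := by
    have h0 := modByMonic_add_div y (X - C a)
    rw [modByMonic_X_sub_C_eq_C_eval] at h0
    linear_combination h0
  have hyd : y.degree = (y.natDegree : WithBot ℕ) := degree_eq_natDegree hy.ne_zero
  have h1 : h.Monic := by
    rw [hh, Monic, leadingCoeff_divByMonic_of_monic hX hdX]
    exact hy
  have hd : h.natDegree = y.natDegree - 1 := by
    rw [hh, natDegree_divByMonic _ hX, natDegree_X_sub_C]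
  have d1 : (X - C a : F[X]).degree < y.degree := by
    rw [degree_X_sub_C, hyd]
    exact_mod_cast (by omega : 1 < y.natDegree)
  have d2 : h.degree < y.degree := by
    rw [degree_eq_natDegree h1.ne_zero, hyd, hd]
    exact_mod_cast (by omega : y.natDegree - 1 < y.natDegree)
  have h2 := hM _ _ hX.ne_zero h1.ne_zero d1 d2
  have e2 : ((X - C a) * h) %ₘ y = C (-(y.eval a)) := by
    rw [e1, sub_modByMonic, (modByMonic_eq_zero_iff_dvd hy).2 dvd_rfl, zero_sub, C_neg]
    congr 1
    rw [modByMonic_eq_self_iff hy]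
    refine degree_C_le.trans_lt ?_
    rw [hyd]
    exact_mod_cast (by omega : 0 < y.natDegree)
  rw [e2, gn_C, Valuation.map_neg] at h2
  apply le_antisymm
  · rw [ValuationSubring.valuation_le_one_iff] at ha ⊢
    rw [eval_eq_sum_range]
    refine O.sum_mem fun k _ => O.mul_mem _ _ ?_ (O.pow_mem ha k)
    rw [← ValuationSubring.valuation_le_one_iff]
    exact (coeff_le_gn O y k).trans hy1
  · rw [h2]
    exact one_le_mul (one_le_gn_of_monic hX) (one_le_gn_of_monic h1)

/-! ### twists -/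

/-- the `i`-fold twist -/
noncomputable def tw (fr : F →+* F) (i : ℕ) (g : F[X]) : F[X] := (fun g : F[X] => g.map fr)^[i] g

variable {fr : F →+* F} {Q : ℕ}

@[simp] theorem tw_zero (g : F[X]) : tw fr 0 g = g := rfl

theorem tw_succ (i : ℕ) (g : F[X]) : tw fr (i + 1) g = (tw fr i g).map fr :=
  Function.iterate_succ_apply' _ _ _

theorem tw_succ' (i : ℕ) (g : F[X]) : tw fr (i + 1) g = tw fr i (g.map fr) :=
  Function.iterate_succ_apply _ _ _

theorem tw_one (g : F[X]) : tw fr 1 g = g.map fr := rfl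

theorem tw_add (i j : ℕ) (g : F[X]) : tw fr (i + j) g = tw fr i (tw fr j g) :=
  Function.iterate_add_apply _ _ _ _

theorem tw_sub' (i : ℕ) (g h : F[X]) : tw fr i (g - h) = tw fr i g - tw fr i h := by
  induction i with
  | zero => rfl
  | succ i ih => rw [tw_succ, tw_succ, tw_succ, ih, Polynomial.map_sub]

theorem tw_mul' (i : ℕ) (g h : F[X]) : tw fr i (g * h) = tw fr i g * tw fr i h := by
  induction i with
  | zero => rfl
  | succ i ih => rw [tw_succ, tw_succ, tw_succ, ih, Polynomial.map_mul]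

theorem degree_tw (i : ℕ) (g : F[X]) : (tw fr i g).degree = g.degree := by
  induction i with
  | zero => rfl
  | succ i ih => rw [tw_succ, degree_map, ih]

theorem natDegree_tw (i : ℕ) (g : F[X]) : (tw fr i g).natDegree = g.natDegree := by
  rw [natDegree, natDegree, degree_tw]

theorem monic_tw {g : F[X]} (hg : g.Monic) (i : ℕ) : (tw fr i g).Monic := by
  induction i with
  | zero => exact hg
  | succ i ih => rw [tw_succ]; exact ih.map fr

theorem tw_ne_zero {g : F[X]} (hg : g ≠ 0) (i : ℕ) : tw fr i g ≠ 0 := by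
  intro h0
  have := degree_tw (fr := fr) i g
  rw [h0, degree_zero] at this
  exact hg (degree_eq_bot.1 this.symm)

theorem coeff_tw (hfr : ∀ x, fr x = x ^ Q) (i : ℕ) (g : F[X]) (k : ℕ) :
    (tw fr i g).coeff k = g.coeff k ^ (Q ^ i) := by
  induction i with
  | zero => rw [tw_zero, pow_zero, pow_one]
  | succ i ih => rw [tw_succ, coeff_map, ih, hfr, ← pow_mul, pow_succ]

theorem gn_tw (hfr : ∀ x, fr x = x ^ Q) (O : ValuationSubring F) (i : ℕ) (g : F[X]) :
    gn O (tw fr i g) = gn O g ^ (Q ^ i) := by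
  induction i with
  | zero => rw [tw_zero, pow_zero, pow_one]
  | succ i ih => rw [tw_succ, gn_map hfr, ih, ← pow_mul, pow_succ]

theorem SameDir.tw (hfr : ∀ x, fr x = x ^ Q) (hQ : Q ≠ 0) {g g' : F[X]} (h : SameDir O g g') (i : ℕ) :
    SameDir O (tw fr i g) (tw fr i g') := by
  induction i with
  | zero => exact h
  | succ i ih => rw [tw_succ, tw_succ]; exact ih.map hfr hQ

/-- if `y ≡ y^fr` then `y ≡ y^(fr^i)`, with the sharp bound -/
theorem gn_sub_tw_le (hfr : ∀ x, fr x = x ^ Q) (hQ : 1 ≤ Q) (h1 : gn O (y - y.map fr) ≤ 1) (i : ℕ) :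
    gn O (y - tw fr i y) ≤ gn O (y - y.map fr) := by
  induction i with
  | zero => rw [tw_zero, sub_self, gn_zero]; exact zero_le
  | succ i ih =>
    have e : y - tw fr (i + 1) y = (y - tw fr i y) + Wor51.tw fr i (y - y.map fr) := by
      rw [tw_sub', tw_succ']; ring
    rw [e]
    refine gn_add_le ih ?_
    rw [gn_tw hfr]
    exact pow_le_of_le_one zero_le h1 (pow_ne_zero _ (by omega))

/-- the set of places of `y` -/
def Xs (fr : F →+* F) (y : F[X]) : Set (ValuationSubring F) :=
  {O | gn O y ≤ 1 ∧ gn O (y - y.map fr) < 1 ∧ MulAt O y}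

theorem mem_Xs_tw (hfr : ∀ x, fr x = x ^ Q) (hQ : 1 ≤ Q) (hy : y.Monic) (i : ℕ) :
    O ∈ Xs fr (tw fr i y) ↔ O ∈ Xs fr y := by
  have hQi : Q ^ i ≠ 0 := pow_ne_zero _ (by omega)
  have e : tw fr i y - (tw fr i y).map fr = tw fr i (y - y.map fr) := by
    rw [tw_sub', ← tw_succ, tw_succ']
  constructor
  · rintro ⟨a, b, c⟩
    rw [gn_tw hfr] at a
    rw [e, gn_tw hfr] at b
    have a' : gn O y ≤ 1 := (pow_le_one_iff hQi).1 a
    have b' : gn O (y - y.map fr) < 1 := (pow_lt_one_iff hQi).1 b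
    refine ⟨a', b', ?_⟩
    refine MulAt.congr (monic_tw hy i) hy (degree_tw i y) (by rw [gn_tw hfr]; exact a) ?_ c
    rw [gn_sub_comm]
    exact (gn_sub_tw_le hfr hQ b'.le i).trans_lt b'
  · rintro ⟨a, b, c⟩
    refine ⟨by rw [gn_tw hfr]; exact pow_le_one' a _, by rw [e, gn_tw hfr]; exact (pow_lt_one_iff hQi).2 b, ?_⟩
    exact MulAt.congr hy (monic_tw hy i) (degree_tw i y).symm a ((gn_sub_tw_le hfr hQ b.le i).trans_lt b) c

/-- membership in `Xs` only depends on the residue of `y` -/
theorem mem_Xs_congr (hfr : ∀ x, fr x = x ^ Q) (hQ : 1 ≤ Q) (hy : y.Monic) (hz : z.Monic) (hyz : y.degree = z.degree)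
    (hlt : gn O (y - z) < 1) (h : O ∈ Xs fr y) : O ∈ Xs fr z := by
  obtain ⟨a, b, c⟩ := h
  refine ⟨gn_le_one_congr a hlt, ?_, MulAt.congr hy hz hyz a hlt c⟩
  have e : z - z.map fr = (y - y.map fr) - (y - z) + (y - z).map fr := by
    rw [Polynomial.map_sub]; ring
  rw [e]
  refine gn_add_lt (gn_sub_lt b hlt) ?_
  rw [gn_map hfr]
  exact (pow_lt_one_iff (by omega)).2 hlt

end Wor51
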