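import Pool.Agent.LibWor51.Mul

/-!
The set `XX f` of valuation subrings where the monic polynomial `f` is integral and has no root modulo the maximal
ideal.  `F` has all roots of all its elements.  Common contents, stable range one, cutoffs.
-/

namespace Wor51

open Polynomial Finset

variable {F : Type*} [Field F] {O : ValuationSubring F}

/-- the places where `f` is integral and has no root -/
def XX (f : F[X]) : Set (ValuationSubring F) :=
  {O | gn O f ≤ 1 ∧ ∀ a : F, O.valuation a ≤ 1 → O.valuation (f.eval a) = 1}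

/-- `F` has all roots -/
def Div (F : Type*) [Field F] : Prop := ∀ a : F, ∀ m : ℕ, 1 ≤ m → ∃ b : F, b ^ m = a

/-- the form attached to `f` -/
noncomputable def nf (f : F[X]) (a b : F) : F :=
  ∑ k ∈ range f.natDegree, f.coeff k * a ^ k * b ^ (f.natDegree - k) + a ^ f.natDegree

theorem nf_eq_of_ne {f : F[X]} (hf : f.Monic) (a : F) {b : F} (hb : b ≠ 0) :
    nf f a b = b ^ f.natDegree * f.eval (a / b) := by
  rw [nf, eval_eq_sum_range, sum_range_succ, mul_add, hf.coeff_natDegree, one_mul, div_pow]
  congr 1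
  · rw [mul_sum]
    refine sum_congr rfl fun k hk => ?_
    have hk' : k < f.natDegree := mem_range.1 hk
    have e : b ^ f.natDegree = b ^ k * b ^ (f.natDegree - k) := by
      rw [← pow_add]; congr 1; omega
    rw [e, div_pow]
    field_simp
  · field_simp

theorem nf_val {f : F[X]} (hf : f.Monic) (hD : 1 ≤ f.natDegree) (hO : O ∈ XX f) (a b : F) :
    O.valuation (nf f a b) = max (O.valuation a) (O.valuation b) ^ f.natDegree := by
  obtain ⟨h1, h2⟩ := hO
  by_cases hab : O.valuation a ≤ O.valuation b
  · rw [max_eq_right hab]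
    by_cases hb : b = 0
    · subst hb
      rw [map_zero] at hab
      have ha : a = 0 := (Valuation.zero_iff _).1 (le_antisymm hab zero_le)
      subst ha
      have : nf f (0 : F) 0 = 0 := by
        rw [nf, zero_pow (by omega), add_zero]
        refine sum_eq_zero fun k hk => ?_
        have hk' : k < f.natDegree := mem_range.1 hk
        rw [zero_pow (show f.natDegree - k ≠ 0 by omega), mul_zero]
      rw [this, map_zero, zero_pow (by omega)]
    · have hb' : O.valuation b ≠ 0 := (Valuation.ne_zero_iff _).2 hb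
      rw [nf_eq_of_ne hf a hb, map_mul, map_pow, h2, mul_one]
      rw [map_div₀]
      exact div_le_one_of_le₀ hab zero_le
  · rw [not_le] at hab
    rw [max_eq_left hab.le, nf, add_comm, Valuation.map_add_eq_of_lt_left, map_pow]
    rw [map_pow]
    have ha0 : O.valuation a ≠ 0 := (zero_le.trans_lt hab).ne'
    refine Valuation.map_sum_lt _ (pow_ne_zero _ ha0) fun k hk => ?_
    have hk' : k < f.natDegree := mem_range.1 hk
    rw [map_mul, map_mul, map_pow, map_pow]
    calc O.valuation (f.coeff k) * O.valuation a ^ k * O.valuation b ^ (f.natDegree - k)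
        ≤ 1 * O.valuation a ^ k * O.valuation b ^ (f.natDegree - k) := by
          gcongr
          exact (coeff_le_gn O f k).trans h1
      _ = O.valuation a ^ k * O.valuation b ^ (f.natDegree - k) := by rw [one_mul]
      _ < O.valuation a ^ k * O.valuation a ^ (f.natDegree - k) := by
          refine (mul_lt_mul_iff_right₀ (zero_lt_iff.2 (pow_ne_zero _ ha0))).2 ?_
          exact pow_lt_pow_left₀ hab zero_le (by omega)
      _ = O.valuation a ^ f.natDegree := by rw [← pow_add]; congr 1; omega

variable {f : F[X]}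

/-- common maximum of two elements -/
theorem exists_max (hdiv : Div F) (hf : f.Monic) (hD : 1 ≤ f.natDegree) (a b : F) :
    ∃ c : F, (a ≠ 0 ∨ b ≠ 0 → c ≠ 0) ∧ ∀ O ∈ XX f, O.valuation c = max (O.valuation a) (O.valuation b) := by
  obtain ⟨c, hc⟩ := hdiv (nf f a b) f.natDegree hD
  have key : ∀ O ∈ XX f, O.valuation c = max (O.valuation a) (O.valuation b) := by
    intro O hO
    have h1 := nf_val hf hD hO a b
    rw [← hc, map_pow] at h1
    exact (pow_left_inj₀ zero_le zero_le (by omega)).1 h1
  by_cases hne : (XX f).Nonempty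
  · refine ⟨c, fun h => ?_, key⟩
    obtain ⟨O, hO⟩ := hne
    have h1 := key O hO
    rintro rfl
    rw [map_zero] at h1
    rcases h with h | h
    · exact (Valuation.ne_zero_iff O.valuation).2 h (le_antisymm (h1 ▸ le_max_left _ _) zero_le)
    · exact (Valuation.ne_zero_iff O.valuation).2 h (le_antisymm (h1 ▸ le_max_right _ _) zero_le)
  · exact ⟨1, fun _ => one_ne_zero, fun O hO => absurd ⟨O, hO⟩ hne⟩

/-- content of a polynomial -/
theorem exists_content (hdiv : Div F) (hf : f.Monic) (hD : 1 ≤ f.natDegree) (g : F[X]) :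
    ∃ c : F, (g ≠ 0 → c ≠ 0) ∧ ∀ O ∈ XX f, O.valuation c = gn O g := by
  have key : ∀ s : Finset ℕ, ∃ c : F, ∀ O ∈ XX f, O.valuation c = s.sup fun k => O.valuation (g.coeff k) := by
    intro s
    induction s using Finset.induction_on with
    | empty => exact ⟨0, fun O _ => by rw [map_zero, sup_empty]; exact bot_eq_zero.symm⟩
    | insert k s hk ih =>
      obtain ⟨c, hc⟩ := ih
      obtain ⟨c', _, hc'⟩ := exists_max hdiv hf hD (g.coeff k) c
      refine ⟨c', fun O hO => ?_⟩
      rw [hc' O hO, sup_insert, hc O hO]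
  obtain ⟨c, hc⟩ := key g.support
  by_cases hne : (XX f).Nonempty
  · refine ⟨c, fun h => ?_, hc⟩
    obtain ⟨O, hO⟩ := hne
    rintro rfl
    have h1 := hc O hO
    rw [map_zero] at h1
    exact gn_ne_zero h h1.symm
  · exact ⟨1, fun _ => one_ne_zero, fun O hO => absurd ⟨O, hO⟩ hne⟩

/-- stable range one -/
theorem exists_sr (hdiv : Div F) (hf : f.Monic) (hD : 1 ≤ f.natDegree) (a b : F) :
    ∃ r : F, (∀ O ∈ XX f, O.valuation r ≤ 1) ∧
      ∀ O ∈ XX f, O.valuation (a + r * b) = max (O.valuation a) (O.valuation b) := by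
  by_cases hab : a ≠ 0 ∨ b ≠ 0
  · obtain ⟨c, hc0, hc⟩ := exists_max hdiv hf hD a b
    have hc0 := hc0 hab
    obtain ⟨x, hx⟩ := hdiv (a / c) f.natDegree hD
    set r := ∑ k ∈ range f.natDegree, f.coeff k * x ^ k * (b / c) ^ (f.natDegree - 1 - k) with hr
    have hle : ∀ O ∈ XX f, O.valuation x ≤ 1 ∧ O.valuation (b / c) ≤ 1 := by
      intro O hO
      have hcv : O.valuation c ≠ 0 := (Valuation.ne_zero_iff _).2 hc0
      constructor
      · refine (pow_le_one_iff (by omega : f.natDegree ≠ 0)).1 ?_
        rw [← map_pow, hx, map_div₀]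
        refine div_le_one_of_le₀ ?_ zero_le
        rw [hc O hO]; exact le_max_left _ _
      · rw [map_div₀]
        refine div_le_one_of_le₀ ?_ zero_le
        rw [hc O hO]; exact le_max_right _ _
    refine ⟨r, fun O hO => ?_, fun O hO => ?_⟩
    · obtain ⟨h1, h2⟩ := hle O hO
      rw [hr]
      refine Valuation.map_sum_le _ fun k _ => ?_
      rw [map_mul, map_mul, map_pow, map_pow]
      exact mul_le_one' (mul_le_one' ((coeff_le_gn O f k).trans hO.1) (pow_le_one' h1 _)) (pow_le_one' h2 _)
    · obtain ⟨h1, h2⟩ := hle O hO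
      have hcv : O.valuation c ≠ 0 := (Valuation.ne_zero_iff _).2 hc0
      have e1 : nf f x (b / c) = a / c + r * (b / c) := by
        rw [nf, hx, add_comm, hr, sum_mul]
        congr 1
        refine sum_congr rfl fun k hk => ?_
        have hk' : k < f.natDegree := mem_range.1 hk
        rw [mul_assoc _ _ (b / c), ← pow_succ]
        congr 2
        omega
      have e2 := nf_val hf hD hO x (b / c)
      have e3 : max (O.valuation x) (O.valuation (b / c)) = 1 := by
        apply le_antisymm (max_le h1 h2)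
        by_contra hlt
        rw [not_le, max_lt_iff] at hlt
        have h3 : O.valuation (a / c) < 1 := by
          rw [← hx, map_pow]; exact pow_lt_one₀ zero_le hlt.1 (by omega)
        have h4 := hlt.2
        rw [map_div₀, div_lt_one₀ (zero_lt_iff.2 hcv)] at h3 h4
        have := hc O hO
        rw [this] at h3 h4
        have := max_lt h3 h4
        exact lt_irrefl _ this
      rw [e3, one_pow, e1] at e2
      have e4 : a + r * b = c * (a / c + r * (b / c)) := by field_simp
      rw [e4, map_mul, e2, mul_one, hc O hO]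
  · rw [not_or, not_not, not_not] at hab
    refine ⟨0, fun O _ => by rw [map_zero]; exact zero_le, fun O _ => ?_⟩
    rw [hab.1, hab.2, mul_zero, add_zero, map_zero, max_self]

/-- the numerator: `v d = min (v a) 1` on `XX f` -/
theorem exists_num (hdiv : Div F) (hf : f.Monic) (hD : 1 ≤ f.natDegree) (a : F) :
    ∃ d : F, (a ≠ 0 → d ≠ 0) ∧ ∀ O ∈ XX f, O.valuation d = min (O.valuation a) 1 := by
  obtain ⟨c, hc0, hc⟩ := exists_max hdiv hf hD a 1
  have hc0 := hc0 (Or.inr one_ne_zero)
  refine ⟨a / c, fun h => div_ne_zero h hc0, fun O hO => ?_⟩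
  have hcv : O.valuation c ≠ 0 := (Valuation.ne_zero_iff _).2 hc0
  rw [map_div₀, hc O hO, map_one]
  rcases le_total (O.valuation a) 1 with h | h
  · rw [max_eq_right h, min_eq_left h, div_one]
  · rw [max_eq_left h, min_eq_right h]
    exact div_self (one_pos.trans_le h).ne'

/-- a cutoff: `u ≡ 1` modulo `α` on `P` and `u ≡ 0` modulo `α` on `Y \ P` -/
structure Cut (f : F[X]) (P Y : Set (ValuationSubring F)) (α u : F) : Prop where
  integral : ∀ O ∈ XX f, O.valuation u ≤ 1
  on : ∀ O ∈ P, O.valuation (u - 1) ≤ O.valuation α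
  off : ∀ O ∈ Y, O ∉ P → O.valuation u ≤ O.valuation α

/-- existence of cutoffs -/
theorem exists_cut (hdiv : Div F) (hf : f.Monic) (hD : 1 ≤ f.natDegree) {P Y : Set (ValuationSubring F)}
    (hPY : P ⊆ Y) (hY : Y ⊆ XX f) {α δ : F} (hα0 : α ≠ 0) (hα : ∀ O ∈ Y, O.valuation α < 1)
    (hP : ∀ O ∈ P, O.valuation δ ≤ O.valuation α) (hnP : ∀ O ∈ Y, O ∉ P → 1 ≤ O.valuation δ) :
    ∃ u : F, Cut f P Y α u := by
  obtain ⟨β, hβ0, hβ⟩ := exists_num hdiv hf hD α
  obtain ⟨d, _, hd⟩ := exists_num hdiv hf hD δ
  obtain ⟨w, hw0, hw⟩ := exists_max hdiv hf hD d β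
  have hβ0 := hβ0 hα0
  have hw0 := hw0 (Or.inr hβ0)
  obtain ⟨r, hr1, hr⟩ := exists_sr hdiv hf hD w (β / w)
  set g := w + r * (β / w) with hg
  have hβY : ∀ O ∈ Y, O.valuation β = O.valuation α := by
    intro O hO
    rw [hβ O (hY hO), min_eq_left (hα O hO).le]
  have hwv : ∀ O : ValuationSubring F, O.valuation w ≠ 0 := fun O => (Valuation.ne_zero_iff _).2 hw0
  have hwP : ∀ O ∈ P, O.valuation w = O.valuation α := by
    intro O hO
    rw [hw O (hY (hPY hO)), hβY O (hPY hO), hd O (hY (hPY hO))]
    exact max_eq_right ((min_le_left _ _).trans (hP O hO))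
  have hwn : ∀ O ∈ Y, O ∉ P → O.valuation w = 1 := by
    intro O hO hn
    rw [hw O (hY hO), hβY O hO, hd O (hY hO), min_eq_right (hnP O hO hn)]
    exact max_eq_left (hα O hO).le
  have hαv : ∀ O : ValuationSubring F, O.valuation α ≠ 0 := fun O => (Valuation.ne_zero_iff _).2 hα0
  have hgY : ∀ O ∈ Y, O.valuation g = 1 := by
    intro O hO
    rw [hg, hr O (hY hO), map_div₀, hβY O hO]
    by_cases hP' : O ∈ P
    · rw [hwP O hP', div_self (hαv O)]
      exact max_eq_right (hα O hO).le
    · rw [hwn O hO hP', div_one]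
      exact max_eq_left (hα O hO).le
  have hg0 : Y.Nonempty → g ≠ 0 := by
    rintro ⟨O, hO⟩ h0
    have := hgY O hO
    rw [h0, map_zero] at this
    exact zero_ne_one this
  by_cases hYe : Y.Nonempty
  · have hg0 := hg0 hYe
    refine ⟨r * (β / w) / g, ?_, ?_, ?_⟩
    · intro O hO
      have hgv : O.valuation g ≠ 0 := (Valuation.ne_zero_iff _).2 hg0
      rw [map_div₀]
      refine div_le_one_of_le₀ ?_ zero_le
      rw [hg, hr O hO, map_mul]
      calc O.valuation r * O.valuation (β / w) ≤ 1 * O.valuation (β / w) := mul_le_mul_left (hr1 O hO) _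
        _ = O.valuation (β / w) := one_mul _
        _ ≤ _ := le_max_right _ _
    · intro O hO
      have e : r * (β / w) / g - 1 = - (w / g) := by
        rw [div_sub_one hg0, hg]; ring
      rw [e, Valuation.map_neg, map_div₀, hgY O (hPY hO), div_one, hwP O hO]
    · intro O hO hn
      rw [map_div₀, hgY O hO, div_one, map_mul, map_div₀, hwn O hO hn, div_one, hβY O hO]
      calc O.valuation r * O.valuation α ≤ 1 * O.valuation α := mul_le_mul_left (hr1 O (hY hO)) _
        _ = O.valuation α := one_mul _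
  · refine ⟨0, fun O _ => by rw [map_zero]; exact zero_le, fun O hO => absurd ⟨O, hPY hO⟩ hYe,
      fun O hO => absurd ⟨O, hO⟩ hYe⟩

/-- the trivial cutoff for `P = Y` -/
theorem Cut.self (f : F[X]) (P : Set (ValuationSubring F)) (α : F) : Cut f P P α 1 := by
  refine ⟨fun O _ => by rw [map_one], fun O _ => by rw [sub_self, map_zero]; exact zero_le, fun O h h' => absurd h h'⟩

end Wor51
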